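import Pool.Agent.Q22.CG.Defs

/-!
# Lemma statements for MP_216434_al
-/

namespace Pool.Agent.Q22.CG

open scoped NNReal

/-! ## Part II: the group `Gam U` -/

/-- II-a: `Gam U` is finitely generated -/
def S_FG : Prop :=
  ∀ (P : Type) [Group P], Group.FG P → ∀ (U : Set P) (k : P), (∀ x, k * x ∈ U ↔ x ∉ U) →
    Group.FG (Gam U)

/-- II-b: normal subgroups of finite index of `Gam U`, `U ⊆ G × K` -/
def S_FIN : Prop :=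
  ∀ (G K : Type) [Group G] [Group K], NoFin K → ∀ (U : Set (G × K)) (k : K),
    (∀ x, ((1 : G), k) * x ∈ U ↔ x ∉ U) → ∀ N : Subgroup (Gam U), N.Normal → N.index ≠ 0 →
    ∀ γ : Gam U, γ.right.1 = 1 → γ ∈ N

/-- an automorphism of `P` preserving `U` extends to `Gam U` -/
def S_AUT : Prop :=
  ∀ (P : Type) [Group P] (U : Set P) (α : P ≃* P), (∀ x, α x ∈ U ↔ x ∈ U) →
    ∃ β : Gam U ≃* Gam U, ∀ γ, (β γ).right = α γ.right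

/-- the rigidity property of `U` relative to `α` -/
def Rigid {P : Type} [Group P] (U : Set P) (α : P ≃* P) : Prop :=
  ∀ (φ : P ≃* P) (c : P), {y | ∃ x ∈ U, y = φ x * c} ∈ Alg U →
    ∃ (q : P) (e : ℕ), ∀ x, φ x * c = q * (α^[e]) x

/-- II-c: `Out (Gam U)` is finite -/
def S_OUT : Prop :=
  ∀ (P : Type) [Group P] (U : Set P) (α : P ≃* P), (∀ x, α (α (α x)) = x) →
    (∀ x, α x ∈ U ↔ x ∈ U) → Rigid U α →
    Finite (MulAut (Gam U) ⧸ (MulAut.conj : Gam U →* MulAut (Gam U)).range)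

/-- the automorphism `α × 1` of `G × K` -/
def extA {G : Type} (K : Type) [Group G] [Group K] (α : G ≃* G) : G × K ≃* G × K :=
  MulEquiv.prodCongr α (MulEquiv.refl K)

/-- II-d: existence of a rigid set -/
def S_RIG : Prop :=
  ∀ (G K : Type) [Group G] [Group K], Group.FG G → Group.FG K → ∀ (α : G ≃* G),
    (∀ x, α (α (α x)) = x) → (∀ H : Subgroup G, (∀ h ∈ H, α h = h) → H.index = 0) →
    (∀ H : Subgroup G, H.index ≠ 0 → H.index ≤ 3 → H = ⊤) →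
    NoFin K → Subgroup.center K = ⊥ → ∀ k : K, k ≠ 1 → k * k = 1 →
    ∃ U : Set (G × K), (∀ x, ((1 : G), k) * x ∈ U ↔ x ∉ U) ∧
      (∀ x, extA K α x ∈ U ↔ x ∈ U) ∧ Rigid U (extA K α)

/-! ## Part I: the finite groups -/

/-- normal subgroups of `QG` -/
def S_Q1 : Prop :=
  ∀ (ι : Type) [Fintype ι] [DecidableEq ι] (p : ℕ) [Fact p.Prime], 3 ≤ Fintype.card ι →
    Nat.Coprime (Fintype.card ι) (p - 1) → ∀ L : Subgroup (QG ι (ZMod p)), L.Normal →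
    L = ⊤ ∨ ∃ ℓ : Submodule (ZMod p) (Fin 2 → ZMod p), ∀ g : QG ι (ZMod p),
      g ∈ L ↔ InV ℓ (g : (Matrix (ι ⊕ Fin 2) (ι ⊕ Fin 2) (ZMod p))ˣ).val

/-- quotients of `QG` have trivial centre -/
def S_Q2 : Prop :=
  ∀ (ι : Type) [Fintype ι] [DecidableEq ι] (p : ℕ) [Fact p.Prime], 3 ≤ Fintype.card ι →
    Nat.Coprime (Fintype.card ι) (p - 1) → ∀ L : Subgroup (QG ι (ZMod p)), L.Normal →
    ∀ g : QG ι (ZMod p), (∀ q : QG ι (ZMod p), g * q * g⁻¹ * q⁻¹ ∈ L) → g ∈ L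

/-- proper normal subgroups of `QG` have index at least `p` -/
def S_Q3 : Prop :=
  ∀ (ι : Type) [Fintype ι] [DecidableEq ι] (p : ℕ) [Fact p.Prime],
    ∀ L : Subgroup (QG ι (ZMod p)), L.Normal → L ≠ ⊤ → p ≤ L.index

/-- the normal subgroups `V_ℓ` exist and are different; order of `QG` -/
def S_Q4 : Prop :=
  ∀ (ι : Type) [Fintype ι] [DecidableEq ι] [Nonempty ι] (p : ℕ) [Fact p.Prime],
    (∀ ℓ : Submodule (ZMod p) (Fin 2 → ZMod p), ∃ L : Subgroup (QG ι (ZMod p)), L.Normal ∧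
      ∀ g : QG ι (ZMod p), g ∈ L ↔ InV ℓ (g : (Matrix (ι ⊕ Fin 2) (ι ⊕ Fin 2) (ZMod p))ˣ).val) ∧
    (∀ ℓ ℓ' : Submodule (ZMod p) (Fin 2 → ZMod p),
      (∀ g : QG ι (ZMod p), InV ℓ (g : (Matrix (ι ⊕ Fin 2) (ι ⊕ Fin 2) (ZMod p))ˣ).val ↔
        InV ℓ' (g : (Matrix (ι ⊕ Fin 2) (ι ⊕ Fin 2) (ZMod p))ˣ).val) → ℓ = ℓ') ∧
    Nat.card (QG ι (ZMod p)) ≤ p ^ ((Fintype.card ι + 2) ^ 2)

/-- `J` acts without invariant lines -/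
def S_J : Prop :=
  ∀ (p : ℕ) [Fact p.Prime], p % 3 = 2 → ∀ ℓ : Submodule (ZMod p) (Fin 2 → ZMod p),
    (∀ v ∈ ℓ, (![v 1 - v 0, - v 0] : Fin 2 → ZMod p) ∈ ℓ) → ℓ = ⊥ ∨ ℓ = ⊤

/-! ## Part I: the group `GG` -/

/-- `GG` is finitely generated -/
def S_G1 : Prop := ∀ (p : ℕ → ℕ) [∀ i, Fact (p i).Prime], Group.FG (GG p)

/-- `GG` contains the direct sum of the `QG` -/
def S_G2 : Prop :=
  ∀ (p : ℕ → ℕ) [∀ i, Fact (p i).Prime] (i : ℕ)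
    (g : (Matrix (Ix i ⊕ Fin 2) (Ix i ⊕ Fin 2) (ZMod (p i)))ˣ), g ∈ QG (Ix i) (ZMod (p i)) →
    (Pi.mulSingle i g : Amb p) ∈ GG p

/-- the coordinates of `GG` are in `QG` -/
def S_G3 : Prop :=
  ∀ (p : ℕ → ℕ) [∀ i, Fact (p i).Prime] (g : Amb p), g ∈ GG p → ∀ i,
    g i ∈ QG (Ix i) (ZMod (p i))

/-- `GG` modulo the elements of finite support has no finite quotients -/
def S_G4 : Prop :=
  ∀ (p : ℕ → ℕ) [∀ i, Fact (p i).Prime] (N : Subgroup (GG p)), N.Normal → N.index ≠ 0 →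
    (∀ g : GG p, {i | (g : Amb p) i ≠ 1}.Finite → g ∈ N) → N = ⊤

/-- conjugation by `diag(1, J)` preserves `GG` -/
def S_G5 : Prop :=
  ∀ (p : ℕ → ℕ) [∀ i, Fact (p i).Prime], ∃ a : Amb p,
    (∀ i, (a i : Matrix (Ix i ⊕ Fin 2) (Ix i ⊕ Fin 2) (ZMod (p i))) = Jd (Ix i) (ZMod (p i))) ∧
    a * a * a = 1 ∧ ∀ g ∈ GG p, a * g * a⁻¹ ∈ GG p

/-- an element of order two with infinite support -/
def S_G6 : Prop :=
  ∀ (p : ℕ → ℕ) [∀ i, Fact (p i).Prime], (∀ i, p i ≠ 2) →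
    ∃ k ∈ GG p, k * k = 1 ∧ ∀ i, k i ≠ 1

/-- finite index normal subgroups of a subgroup `G` of a product of groups `A i` which projects
into `Q i` and contains the direct sum of the `Q i` -/
def S_CL : Prop :=
  ∀ (A : ℕ → Type) [∀ i, Group (A i)] (Q : ∀ i, Subgroup (A i)) (G : Subgroup (∀ i, A i)),
    (∀ i, ∀ L : Subgroup (Q i), L.Normal → ∀ g : Q i, (∀ q : Q i, g * q * g⁻¹ * q⁻¹ ∈ L) →
      g ∈ L) →
    (∀ i, ∀ g : A i, g ∈ Q i → (Pi.mulSingle i g : ∀ i, A i) ∈ G) →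
    ∀ hQ : (∀ g ∈ G, ∀ i, g i ∈ Q i),
    (∀ N : Subgroup G, N.Normal → N.index ≠ 0 →
      (∀ g : G, {i | (g : ∀ i, A i) i ≠ 1}.Finite → g ∈ N) → N = ⊤) →
    ∀ N : Subgroup G, N.Normal → N.index ≠ 0 →
      ∃ L : ∀ i, Subgroup (Q i), (∀ i, (L i).Normal) ∧ {i | L i ≠ ⊤}.Finite ∧
        (∀ i, (L i).index ≤ N.index) ∧
        ∀ g : G, g ∈ N ↔ ∀ i, (⟨(g : ∀ i, A i) i, hQ g g.2 i⟩ : Q i) ∈ L i

/-- the conditions on the primes -/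
structure GoodPrimes (p : ℕ → ℕ) : Prop where
  mono : StrictMono p
  prime : ∀ i, (p i).Prime
  mod3 : ∀ i, p i % 3 = 2
  big : ∀ i, 6 < p i

/-- counting for `GG` -/
def S_CNT : Prop :=
  ∀ (p : ℕ → ℕ) [∀ i, Fact (p i).Prime], GoodPrimes p → ∀ (a : Amb p) (α : GG p ≃* GG p),
    (∀ i, (a i : Matrix (Ix i ⊕ Fin 2) (Ix i ⊕ Fin 2) (ZMod (p i))) = Jd (Ix i) (ZMod (p i))) →
    (∀ g : GG p, ((α g : GG p) : Amb p) = a * (g : Amb p) * a⁻¹) →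
    (∀ n, {N : Subgroup (GG p) | N.Normal ∧ N.index ≠ 0 ∧ N.index ≤ n}.Finite) ∧
    (∀ n i, n < p i → invCount (GG p) α n ≤ 3 ^ i) ∧
    (∀ n i, (p i) ^ ((3 * 3 ^ i + 2) ^ 2) ≤ n → p i ≤ normCount (GG p) n)

/-- the remaining properties of `GG` needed for `S_RIG` -/
def S_PROP : Prop :=
  ∀ (p : ℕ → ℕ) [∀ i, Fact (p i).Prime], GoodPrimes p → ∀ (a : Amb p) (α : GG p ≃* GG p),
    (∀ i, (a i : Matrix (Ix i ⊕ Fin 2) (Ix i ⊕ Fin 2) (ZMod (p i))) = Jd (Ix i) (ZMod (p i))) →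
    (∀ g : GG p, ((α g : GG p) : Amb p) = a * (g : Amb p) * a⁻¹) →
    (∀ H : Subgroup (GG p), (∀ h ∈ H, α h = h) → H.index = 0) ∧
    (∀ H : Subgroup (GG p), H.index ≠ 0 → H.index ≤ 3 → H = ⊤) ∧
    Group.FG (GG p ⧸ DD p) ∧ NoFin (GG p ⧸ DD p) ∧ Subgroup.center (GG p ⧸ DD p) = ⊥ ∧
    ∃ k : GG p ⧸ DD p, k ≠ 1 ∧ k * k = 1

/-! ## Growth types -/

/-- `g` has growth type `f` -/
def HasType (g : ℕ → ℕ) (f : ℕ → ℝ≥0) : Prop :=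
  (∃ a : ℝ, 0 < a ∧ ∀ n, 1 ≤ n → (g n : ℝ) ≤ (f n : ℝ) ^ a) ∧
    ∃ b : ℝ, 0 < b ∧ ∃ᶠ n in Filter.atTop, (f n : ℝ) ^ b ≤ (g n : ℝ)

/-- choice of the primes and comparison of growth types -/
def S_GR : Prop :=
  ∃ p : ℕ → ℕ, GoodPrimes p ∧ ∀ c b : ℕ → ℕ,
    (∀ n i, n < p i → c n ≤ 3 ^ i) →
    (∀ n i, (p i) ^ ((3 * 3 ^ i + 2) ^ 2) ≤ n → p i ≤ b n) →
    ¬ ∃ f : ℕ → ℝ≥0, HasType c f ∧ HasType b f

/-- the final statement -/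
def S_FINAL : Prop :=
  ∃ (Γ : Type) (_ : Group Γ), Group.FG Γ ∧
    Finite (MulAut Γ ⧸ (MulAut.conj : Γ →* MulAut Γ).range) ∧
    ¬ ∃ f : ℕ → ℝ≥0, HasType (charCount Γ) f ∧ HasType (normCount Γ) f

end Pool.Agent.Q22.CG
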