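import Pool.Agent.Q22.CG.Blk

set_option linter.unusedSectionVars false

namespace Pool.Agent.Q22.CG

section Blk

variable {X : Type} [Fintype X] [DecidableEq X] {F : Type} [Field F]

theorem Nb_single (a b : Fin 3) (s t : X) (c : F) :
    Nb a b (Matrix.single s t c) = Matrix.single (Sum.inl (a, s)) (Sum.inl (b, t)) c := by
  ext u w
  rcases u with ⟨a', s'⟩ | c1 <;> rcases w with ⟨b', t'⟩ | c2
  · simp only [Nb, Matrix.single_apply, Sum.inl.injEq, Prod.mk.injEq]
    by_cases h1 : a' = a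
    · by_cases h2 : b' = b
      · subst h1; subst h2; simp
      · have h2' : ¬ (b = b') := fun h => h2 h.symm
        simp [h2, h2']
    · have h1' : ¬ (a = a') := fun h => h1 h.symm
      simp [h1, h1']
  · simp [Nb, Matrix.single_apply]
  · simp [Nb, Matrix.single_apply]
  · simp [Nb, Matrix.single_apply]

theorem Nt_single (a : Fin 3) (c' : Fin 2) (s : X) (c : F) :
    Nt a c' (Pi.single s c) = Matrix.single (Sum.inl (a, s)) (Sum.inr c') c := by
  ext u w
  rcases u with ⟨a', s'⟩ | c1 <;> rcases w with ⟨b', t'⟩ | c2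
  · simp [Nt, Matrix.single_apply]
  · simp only [Nt, Matrix.single_apply, Sum.inl.injEq, Prod.mk.injEq, Sum.inr.injEq,
      Pi.single_apply]
    by_cases h1 : a' = a
    · by_cases h2 : c2 = c'
      · subst h1; subst h2
        by_cases h3 : s' = s
        · subst h3; simp
        · have h3' : ¬ (s = s') := fun h => h3 h.symm
          simp [h3, h3']
      · have h2' : ¬ (c' = c2) := fun h => h2 h.symm
        simp [h2, h2']
    · have h1' : ¬ (a = a') := fun h => h1 h.symm
      simp [h1, h1']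
  · simp [Nt, Matrix.single_apply]
  · simp [Nt, Matrix.single_apply]

end Blk

variable (p : ℕ → ℕ) [∀ i, Fact (p i).Prime]

theorem eU_single (a b : Fin 3) (h : a ≠ b) (i : ℕ)
    (M : Matrix (Fin (3 ^ i)) (Fin (3 ^ i)) (ZMod (p i))) :
    eU p a b h (Pi.single i M) = Pi.mulSingle i (oneAdd (Nb a b M) (Nb_sq h M)) := by
  funext j
  apply Units.ext
  by_cases hj : j = i
  · subst hj
    rw [Pi.mulSingle_eq_same]
    show 1 + Nb a b ((Pi.single j M : RR p) j) = 1 + Nb a b M
    rw [Pi.single_eq_same]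
  · rw [Pi.mulSingle_eq_of_ne hj]
    show 1 + Nb a b ((Pi.single i M : RR p) j) = 1
    rw [Pi.single_eq_of_ne hj, Nb_zero, add_zero]

theorem g2 : S_G2 := by
  intro p _ i g hg
  unfold QG at hg
  suffices hsuff : Subgroup.closure {g : (Matrix (Ix i ⊕ Fin 2) (Ix i ⊕ Fin 2) (ZMod (p i)))ˣ |
      ∃ (u : Ix i) (w : Ix i ⊕ Fin 2) (c : ZMod (p i)), Sum.inl u ≠ w ∧
      (g : Matrix (Ix i ⊕ Fin 2) (Ix i ⊕ Fin 2) (ZMod (p i))) =
        Matrix.transvection (Sum.inl u) w c} ≤ (GG p).comap (MonoidHom.mulSingle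
          (fun i => (Matrix (Ix i ⊕ Fin 2) (Ix i ⊕ Fin 2) (ZMod (p i)))ˣ) i) from hsuff hg
  clear hg g
  rw [Subgroup.closure_le]
  rintro g ⟨⟨a, s⟩, w, c, hne, hg⟩
  show (Pi.mulSingle i g : Amb p) ∈ GG p
  rcases w with ⟨b, t⟩ | c'
  · by_cases hab : a = b
    · subst hab
      have hst : s ≠ t := by
        rintro rfl; exact hne rfl
      obtain ⟨d, hd⟩ : ∃ d : Fin 3, a ≠ d := by
        fin_cases a
        · exact ⟨1, by decide⟩
        · exact ⟨0, by decide⟩
        · exact ⟨0, by decide⟩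
      have key : (Pi.mulSingle i g : Amb p) =
          eU p a d hd (Pi.single i (Matrix.single s s c)) *
          eU p d a hd.symm (Pi.single i (Matrix.single s t 1)) *
          (eU p a d hd (Pi.single i (Matrix.single s s c)))⁻¹ *
          (eU p d a hd.symm (Pi.single i (Matrix.single s t 1)))⁻¹ := by
        rw [eU_single, eU_single, ← Pi.mulSingle_inv, ← Pi.mulSingle_inv, ← Pi.mulSingle_mul,
          ← Pi.mulSingle_mul, ← Pi.mulSingle_mul]
        congr 1
        apply Units.ext
        rw [hg]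
        refine Eq.symm ((comm_oneAdd _ _ _ _ ?_).trans ?_)
        · rw [Nb_mul_Nb, if_pos rfl, Matrix.single_mul_single_of_ne _ _ _ _ hst.symm, Nb_zero]
        · rw [Nb_mul_Nb, if_pos rfl, Matrix.single_mul_single_same, mul_one, Nb_single]
          rfl
      rw [key]
      have m1 := eU_mem p a d hd _ (single_mem p i (Matrix.single s s c))
      have m2 := eU_mem p d a hd.symm _ (single_mem p i (Matrix.single s t 1))
      exact mul_mem (mul_mem (mul_mem m1 m2) (inv_mem m1)) (inv_mem m2)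
    · have key : (Pi.mulSingle i g : Amb p) =
          eU p a b hab (Pi.single i (Matrix.single s t c)) := by
        rw [eU_single]
        congr 1
        apply Units.ext
        rw [hg]
        show _ = 1 + Nb a b (Matrix.single s t c)
        rw [Nb_single]; rfl
      rw [key]
      exact eU_mem p a b hab _ (single_mem p i _)
  · have hpos : 0 < 3 ^ i := by positivity
    have key : (Pi.mulSingle i g : Amb p) =
        tU p a c' (fun j => ((Pi.single i (Matrix.single s ⟨0, hpos⟩ c) : RR p) j).mulVec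
          (m0 p j)) := by
      funext j
      apply Units.ext
      by_cases hj : j = i
      · subst hj
        rw [Pi.mulSingle_eq_same, hg]
        show _ = 1 + Nt a c' (((Pi.single j (Matrix.single s ⟨0, hpos⟩ c) : RR p) j).mulVec
          (m0 p j))
        rw [Pi.single_eq_same]
        have : (Matrix.single s ⟨0, hpos⟩ c).mulVec (m0 p j) = Pi.single s c := by
          ext t
          rw [Matrix.mulVec, dotProduct, Finset.sum_eq_single ⟨0, hpos⟩]
          · rw [Matrix.single_apply, Pi.single_apply]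
            by_cases h : t = s
            · subst h; simp [m0]
            · rw [if_neg h, if_neg (fun h' => h h'.1.symm), zero_mul]
          · intro b _ hb
            rw [Matrix.single_apply, if_neg (fun h' => hb h'.2.symm), zero_mul]
          · simp
        rw [this, Nt_single]; rfl
      · rw [Pi.mulSingle_eq_of_ne hj]
        show _ = 1 + Nt a c' (((Pi.single i (Matrix.single s ⟨0, hpos⟩ c) : RR p) j).mulVec
          (m0 p j))
        rw [Pi.single_eq_of_ne hj, Matrix.zero_mulVec, Nt_zero, add_zero]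
        rfl
    rw [key]
    exact tU_mem p a c' _ (single_mem p i _)

/-! ### no finite quotients -/

theorem xxT_mul_xx (j : ℕ) : (xx p j).transpose * xx p j = 1 := by
  ext b a
  have hpos : 0 < 3 ^ j := by positivity
  rw [Matrix.mul_apply, Finset.sum_eq_single ⟨((a : ℕ) + 1) % 3 ^ j, Nat.mod_lt _ hpos⟩]
  · simp only [Matrix.transpose_apply, xx, Matrix.of_apply, if_true, mul_one, Matrix.one_apply]
    by_cases h : b = a
    · subst h; simp
    · rw [if_neg h, if_neg]
      intro h'
      apply h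
      have h1 : (a : ℕ) + 1 ≡ (b : ℕ) + 1 [MOD 3 ^ j] := h'
      have h2 : (a : ℕ) ≡ (b : ℕ) [MOD 3 ^ j] := Nat.ModEq.add_right_cancel' 1 h1
      exact Fin.ext (Nat.ModEq.eq_of_lt_of_lt h2.symm b.2 a.2)
  · intro c _ hc
    simp only [Matrix.transpose_apply, xx, Matrix.of_apply]
    have : ¬ ((c : ℕ) = ((a : ℕ) + 1) % 3 ^ j) := fun h => hc (Fin.ext h)
    rw [if_neg this, mul_zero]
  · simp

/-- the transposed shift -/
def xT : RR p := fun i => (xx p i).transpose

theorem xT_pow_mul (a : ℕ) : xT p ^ a * xx p ^ a = 1 := by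
  have h : xT p * xx p = 1 := by
    funext j; exact xxT_mul_xx p j
  induction a with
  | zero => simp
  | succ a ih =>
    rw [pow_succ, pow_succ']
    calc xT p ^ a * xT p * (xx p * xx p ^ a) = xT p ^ a * (xT p * xx p) * xx p ^ a := by
          simp only [mul_assoc]
      _ = 1 := by rw [h, mul_one, ih]

/-- the idempotents -/
def ee (s a : ℕ) : RR p := xx p ^ a * rho p s * xT p ^ a

theorem ee_mem (s a : ℕ) : ee p s a ∈ Rg p :=
  mul_mem (mul_mem (pow_mem (xx_mem p) _) (rho_mem p s)) (pow_mem (xxT_mem p) _)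

theorem ee_apply (s a j : ℕ) (hj : s ≤ j) : ee p s a j =
    Matrix.diagonal (fun b : Fin (3 ^ j) => if (b : ℕ) % 3 ^ s = a % 3 ^ s then 1 else 0) := by
  have e : ee p s a j = xx p j ^ a * rho p s j * (xx p j ^ a).transpose := by
    simp [ee, xT, Matrix.transpose_pow]
  have hpos : 0 < 3 ^ j := by positivity
  have hdvd : 3 ^ s ∣ 3 ^ j := pow_dvd_pow 3 hj
  rw [e, rho_diag]
  ext b b'
  rw [Matrix.mul_apply]
  simp only [Matrix.mul_diagonal, Matrix.transpose_apply, xx_pow, Matrix.diagonal_apply]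
  -- the unique `c`
  have hinj : Function.Injective (fun c : Fin (3 ^ j) =>
      (⟨((c : ℕ) + a) % 3 ^ j, Nat.mod_lt _ hpos⟩ : Fin (3 ^ j))) := by
    intro c c' h
    have h1 : (c : ℕ) + a ≡ (c' : ℕ) + a [MOD 3 ^ j] := congrArg Fin.val h
    have h2 := Nat.ModEq.add_right_cancel' a h1
    exact Fin.ext (Nat.ModEq.eq_of_lt_of_lt h2 c.2 c'.2)
  obtain ⟨c0, hc0⟩ := (Finite.injective_iff_surjective.mp hinj) b
  have hc0' : (b : ℕ) = ((c0 : ℕ) + a) % 3 ^ j := (congrArg Fin.val hc0).symm
  rw [Finset.sum_eq_single c0]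
  · have h3 : 3 ^ s ∣ (c0 : ℕ) ↔ (b : ℕ) % 3 ^ s = a % 3 ^ s := by
      have h4 : (b : ℕ) % 3 ^ s = ((c0 : ℕ) + a) % 3 ^ s := by
        rw [hc0', Nat.mod_mod_of_dvd _ hdvd]
      rw [h4]
      constructor
      · intro h
        rw [Nat.add_mod, Nat.mod_eq_zero_of_dvd h, zero_add, Nat.mod_mod]
      · intro h
        have h5 : (c0 : ℕ) + a ≡ 0 + a [MOD 3 ^ s] := by rw [zero_add]; exact h
        have h6 := Nat.ModEq.add_right_cancel' a h5
        exact (Nat.modEq_zero_iff_dvd).mp h6
    rw [if_pos hc0', one_mul]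
    by_cases hb : b = b'
    · subst hb
      rw [if_pos hc0', if_pos rfl, mul_one]
      by_cases h : 3 ^ s ∣ (c0 : ℕ)
      · rw [if_pos h, if_pos (h3.mp h)]
      · rw [if_neg h, if_neg (fun h' => h (h3.mpr h'))]
    · have hb' : ¬ ((b' : ℕ) = ((c0 : ℕ) + a) % 3 ^ j) :=
        fun h' => hb (Fin.ext (hc0'.trans h'.symm))
      rw [if_neg hb, if_neg hb', mul_zero]
  · intro c _ hc
    rw [if_neg, zero_mul, zero_mul]
    intro h'
    apply hc
    apply hinj
    exact Fin.ext (h'.symm.trans hc0')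
  · simp

theorem ee_sq (s a : ℕ) : ee p s a * ee p s a = ee p s a := by
  have h : rho p s * rho p s = rho p s := by
    funext j
    show rho p s j * rho p s j = rho p s j
    rw [rho_diag, Matrix.diagonal_mul_diagonal]
    congr 1
    funext b
    split_ifs <;> simp
  unfold ee
  calc xx p ^ a * rho p s * xT p ^ a * (xx p ^ a * rho p s * xT p ^ a)
      = xx p ^ a * rho p s * (xT p ^ a * xx p ^ a) * rho p s * xT p ^ a := by
        simp only [mul_assoc]
    _ = xx p ^ a * (rho p s * rho p s) * xT p ^ a := by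
        rw [xT_pow_mul]; simp only [mul_assoc, mul_one, one_mul]
    _ = _ := by rw [h]

theorem ee_orth (s a b j : ℕ) (hj : s ≤ j) (ha : a < 3 ^ s) (hb : b < 3 ^ s) (hab : a ≠ b) :
    (ee p s a * ee p s b) j = 0 := by
  show ee p s a j * ee p s b j = 0
  rw [ee_apply p s a j hj, ee_apply p s b j hj, Matrix.diagonal_mul_diagonal]
  ext u w
  rw [Matrix.diagonal_apply]
  split_ifs with h h1 h2
  · exfalso
    apply hab
    rw [h1, Nat.mod_eq_of_lt ha, Nat.mod_eq_of_lt hb] at h2
    exact h2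
  all_goals simp

theorem ee_sum (s j : ℕ) (hj : s ≤ j) : (1 - ∑ a ∈ Finset.range (3 ^ s), ee p s a : RR p) j = 0 := by
  have hpos : 0 < 3 ^ s := by positivity
  rw [Pi.sub_apply, Finset.sum_apply, sub_eq_zero]
  rw [Finset.sum_congr rfl (fun a _ => ee_apply p s a j hj)]
  ext u w
  rw [Matrix.sum_apply, Pi.one_apply, Matrix.one_apply]
  by_cases h : u = w
  · subst h
    simp only [Matrix.diagonal_apply, if_true]
    rw [Finset.sum_eq_single ((u : ℕ) % 3 ^ s)]
    · simp
    · intro b hb hne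
      rw [if_neg]
      rw [Finset.mem_range] at hb
      rw [Nat.mod_eq_of_lt hb]
      exact Ne.symm hne
    · intro h
      exact absurd (Finset.mem_range.mpr (Nat.mod_lt _ hpos)) h
  · simp [Matrix.diagonal_apply, h]

section Quot

variable {p} (N : Subgroup (GG p))

/-- the ideal -/
def II (r : RR p) : Prop :=
  r ∈ Rg p ∧ ∀ (a b : Fin 3) (h : a ≠ b) (hm : eU p a b h r ∈ GG p), (⟨eU p a b h r, hm⟩ : GG p) ∈ N

variable {N}

theorem II_add {r s : RR p} (hr : II N r) (hs : II N s) : II N (r + s) := by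
  refine ⟨add_mem hr.1 hs.1, fun a b h hm => ?_⟩
  have h1 := N.mul_mem (hr.2 a b h (eU_mem p a b h r hr.1)) (hs.2 a b h (eU_mem p a b h s hs.1))
  have : (⟨eU p a b h (r + s), hm⟩ : GG p) =
      ⟨eU p a b h r, eU_mem p a b h r hr.1⟩ * ⟨eU p a b h s, eU_mem p a b h s hs.1⟩ :=
    Subtype.ext (eU_mul p a b h r s).symm
  rw [this]; exact h1

theorem eU_inv (a b : Fin 3) (h : a ≠ b) (r : RR p) : (eU p a b h r)⁻¹ = eU p a b h (-r) := by
  rw [inv_eq_iff_mul_eq_one, eU_mul, add_neg_cancel]
  funext i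
  apply Units.ext
  show 1 + Nb a b 0 = 1
  rw [Nb_zero, add_zero]

theorem II_neg {r : RR p} (hr : II N r) : II N (-r) := by
  refine ⟨neg_mem hr.1, fun a b h hm => ?_⟩
  have h1 := N.inv_mem (hr.2 a b h (eU_mem p a b h r hr.1))
  have : (⟨eU p a b h (-r), hm⟩ : GG p) = (⟨eU p a b h r, eU_mem p a b h r hr.1⟩)⁻¹ :=
    Subtype.ext (eU_inv a b h r).symm
  rw [this]; exact h1

theorem third (a b : Fin 3) (h : a ≠ b) : ∃ c : Fin 3, a ≠ c ∧ c ≠ b := by
  revert a b; decide

theorem II_mul_right [N.Normal] {r s : RR p} (hr : II N r) (hs : s ∈ Rg p) : II N (r * s) := by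
  refine ⟨mul_mem hr.1 hs, fun a b h hm => ?_⟩
  obtain ⟨c, hac, hcb⟩ := third a b h
  have h1 := hr.2 a c hac (eU_mem p a c hac r hr.1)
  have h2 := N.mul_mem h1
    (Subgroup.Normal.conj_mem (inferInstance : N.Normal) _ (N.inv_mem h1)
      ⟨eU p c b hcb s, eU_mem p c b hcb s hs⟩)
  have : (⟨eU p a b h (r * s), hm⟩ : GG p) =
      ⟨eU p a c hac r, eU_mem p a c hac r hr.1⟩ *
        (⟨eU p c b hcb s, eU_mem p c b hcb s hs⟩ * (⟨eU p a c hac r, eU_mem p a c hac r hr.1⟩)⁻¹ *
          (⟨eU p c b hcb s, eU_mem p c b hcb s hs⟩)⁻¹) := by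
    apply Subtype.ext
    show eU p a b h (r * s) = eU p a c hac r * (eU p c b hcb s * (eU p a c hac r)⁻¹ *
      (eU p c b hcb s)⁻¹)
    rw [← eU_comm p a c b hac hcb h r s]
    simp only [mul_assoc]
  rw [this]; exact h2

theorem II_mul_left [N.Normal] {r s : RR p} (hr : II N r) (hs : s ∈ Rg p) : II N (s * r) := by
  refine ⟨mul_mem hs hr.1, fun a b h hm => ?_⟩
  obtain ⟨c, hac, hcb⟩ := third a b h
  have h1 := hr.2 c b hcb (eU_mem p c b hcb r hr.1)
  have h2 := N.mul_mem (Subgroup.Normal.conj_mem (inferInstance : N.Normal) _ h1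
      ⟨eU p a c hac s, eU_mem p a c hac s hs⟩) (N.inv_mem h1)
  have : (⟨eU p a b h (s * r), hm⟩ : GG p) =
      (⟨eU p a c hac s, eU_mem p a c hac s hs⟩ * ⟨eU p c b hcb r, eU_mem p c b hcb r hr.1⟩ *
        (⟨eU p a c hac s, eU_mem p a c hac s hs⟩)⁻¹) *
        (⟨eU p c b hcb r, eU_mem p c b hcb r hr.1⟩)⁻¹ := by
    apply Subtype.ext
    exact (eU_comm p a c b hac hcb h s r).symm
  rw [this]; exact h2

theorem II_fin (hN : ∀ g : GG p, {i | (g : Amb p) i ≠ 1}.Finite → g ∈ N) {r : RR p}
    (hr : {i | r i ≠ 0}.Finite) : II N r := by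
  refine ⟨finsupp_mem p r hr, fun a b h hm => hN _ (hr.subset ?_)⟩
  intro i hi hcon
  apply hi
  apply Units.ext
  show 1 + Nb a b (r i) = 1
  rw [hcon, Nb_zero, add_zero]

theorem fin_of_zero {r : RR p} (s : ℕ) (h : ∀ j, s ≤ j → r j = 0) : {i | r i ≠ 0}.Finite := by
  refine (Set.finite_lt_nat s).subset ?_
  intro i hi
  by_contra hcon
  exact hi (h i (not_lt.mp hcon))

theorem g4' (N : Subgroup (GG p)) [N.Normal] (h0 : N.index ≠ 0)
    (hN : ∀ g : GG p, {i | (g : Amb p) i ≠ 1}.Finite → g ∈ N) : ∀ r ∈ Rg p, II N r := by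
  haveI : N.FiniteIndex := ⟨h0⟩
  haveI : Finite (GG p ⧸ N) := inferInstance
  -- pigeonhole
  let T := (∀ a b : Fin 3, a ≠ b → GG p ⧸ N)
  haveI : Finite T := inferInstance
  obtain ⟨s, hs⟩ : ∃ s : ℕ, Nat.card T < 3 ^ s := ⟨Nat.card T, Nat.lt_pow_self (by norm_num)⟩
  let F : Fin (3 ^ s) → T := fun k a b h =>
    QuotientGroup.mk (⟨eU p a b h (ee p s k), eU_mem p a b h _ (ee_mem p s k)⟩ : GG p)
  have hni : ¬ Function.Injective F := by
    intro hinj
    have := Nat.card_le_card_of_injective F hinj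
    rw [Nat.card_eq_fintype_card, Fintype.card_fin] at this
    omega
  simp only [Function.Injective, not_forall] at hni
  obtain ⟨k, l, hkl, hne⟩ := hni
  have hne' : (k : ℕ) ≠ l := fun h => hne (Fin.ext h)
  have hd : II N (ee p s l - ee p s k) := by
    refine ⟨sub_mem (ee_mem p s l) (ee_mem p s k), fun a b h hm => ?_⟩
    have h1 := congrFun (congrFun (congrFun hkl a) b) h
    have h2 := QuotientGroup.eq.mp h1
    have : (⟨eU p a b h (ee p s l - ee p s k), hm⟩ : GG p) =
        (⟨eU p a b h (ee p s k), eU_mem p a b h _ (ee_mem p s k)⟩)⁻¹ *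
          ⟨eU p a b h (ee p s l), eU_mem p a b h _ (ee_mem p s l)⟩ := by
      apply Subtype.ext
      show eU p a b h (ee p s l - ee p s k) = (eU p a b h (ee p s k))⁻¹ * eU p a b h (ee p s l)
      rw [eU_inv, eU_mul]
      rw [neg_add_eq_sub]
    rw [this]; exact h2
  have hlk : II N (ee p s l * ee p s k) :=
    II_fin hN (fin_of_zero s fun j hj => ee_orth p s l k j hj l.2 k.2 (Ne.symm hne'))
  have hl : II N (ee p s l) := by
    have h1 := II_add (II_mul_left hd (ee_mem p s l)) hlk
    have : ee p s l * (ee p s l - ee p s k) + ee p s l * ee p s k = ee p s l := by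
      rw [mul_sub, sub_add_cancel, ee_sq]
    rwa [this] at h1
  have hrho : II N (rho p s) := by
    have h1 := II_mul_right (II_mul_left hl (pow_mem (xxT_mem p) (l : ℕ)))
      (pow_mem (xx_mem p) (l : ℕ))
    have : (fun i => (xx p i).transpose) ^ (l : ℕ) * ee p s l * xx p ^ (l : ℕ) = rho p s := by
      show xT p ^ (l : ℕ) * (xx p ^ (l : ℕ) * rho p s * xT p ^ (l : ℕ)) * xx p ^ (l : ℕ) = _
      calc _ = (xT p ^ (l : ℕ) * xx p ^ (l : ℕ)) * rho p s * (xT p ^ (l : ℕ) * xx p ^ (l : ℕ)) := by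
            simp only [mul_assoc]
        _ = _ := by rw [xT_pow_mul, one_mul, mul_one]
    rwa [this] at h1
  have hall : ∀ a, II N (ee p s a) := fun a =>
    II_mul_right (II_mul_left hrho (pow_mem (xx_mem p) a)) (pow_mem (xxT_mem p) a)
  have hz : II N (0 : RR p) := II_fin hN (by simp)
  have hsum : II N (∑ a ∈ Finset.range (3 ^ s), ee p s a) := by
    have : ∀ m, II N (∑ a ∈ Finset.range m, ee p s a) := by
      intro m
      induction m with
      | zero => simpa using hz
      | succ m ih =>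
        rw [Finset.sum_range_succ]
        exact II_add ih (hall m)
    exact this _
  have hone : II N (1 : RR p) := by
    have h1 := II_add (II_fin hN (fin_of_zero s fun j hj => ee_sum p s j hj)) hsum
    rwa [sub_add_cancel] at h1
  intro r hr
  have := II_mul_left hone hr
  rwa [mul_one] at this

end Quot

theorem g4 : S_G4 := by
  intro p _ N hNn h0 hN
  haveI := hNn
  have hall := g4' N h0 hN
  have key : ∀ g (hg : g ∈ GG p), (⟨g, hg⟩ : GG p) ∈ N := by
    intro g hg
    have hg' := hg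
    unfold GG at hg'
    induction hg' using Subgroup.closure_induction with
    | mem g hg1 =>
      rcases hg1 with ⟨a, b, r, hab, hr, he⟩ | ⟨a, c, r, hr, he⟩
      · have : g = eU p a b hab r := by
          funext i
          apply Units.ext
          rw [he, EM_eq]; rfl
        subst this
        exact (hall r hr).2 a b hab hg
      · obtain ⟨b, hab⟩ : ∃ b : Fin 3, a ≠ b := (by decide : ∀ a : Fin 3, ∃ b : Fin 3, a ≠ b) a
        have hm0 : tU p b c (fun j => ((1 : RR p) j).mulVec (m0 p j)) ∈ GG p :=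
          tU_mem p b c 1 (one_mem _)
        have h1 := (hall r hr).2 a b hab (eU_mem p a b hab r hr)
        have h2 := N.mul_mem h1 (hNn.conj_mem _ (N.inv_mem h1) ⟨_, hm0⟩)
        have : (⟨g, hg⟩ : GG p) = ⟨eU p a b hab r, eU_mem p a b hab r hr⟩ *
            (⟨_, hm0⟩ * (⟨eU p a b hab r, eU_mem p a b hab r hr⟩)⁻¹ * (⟨_, hm0⟩)⁻¹) := by
          apply Subtype.ext
          show g = eU p a b hab r * (tU p b c (fun j => ((1 : RR p) j).mulVec (m0 p j)) *
            (eU p a b hab r)⁻¹ * (tU p b c (fun j => ((1 : RR p) j).mulVec (m0 p j)))⁻¹)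
          have h3 := eU_tU_comm p a b c hab r (fun j => ((1 : RR p) j).mulVec (m0 p j))
          rw [← mul_assoc, ← mul_assoc, h3]
          funext i
          apply Units.ext
          rw [he, TM_eq]
          show _ = 1 + Nt a c ((r i).mulVec ((1 : Matrix _ _ _).mulVec (m0 p i)))
          rw [Matrix.one_mulVec]
        rw [this]; exact h2
    | one => exact N.one_mem
    | mul x y hx hy ihx ihy =>
      have := N.mul_mem (ihx hx) (ihy hy)
      exact this
    | inv x hx ih => exact N.inv_mem (ih hx)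
  rw [eq_top_iff]
  rintro ⟨g, hg⟩ -
  exact key g hg

end Pool.Agent.Q22.CG
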