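import Pool.Agent.Q22.CG.Stm

namespace Pool.Agent.Q22.CG

open scoped NNReal

theorem exists_prime (n : ℕ) : ∃ q : ℕ, n < q ∧ q.Prime ∧ q % 3 = 2 := by
  have h : IsUnit (2 : ZMod 3) := by decide
  obtain ⟨q, hq, hqp, he⟩ := Nat.forall_exists_prime_gt_and_eq_mod (q := 3) (a := (2 : ZMod 3)) h n
  refine ⟨q, hq, hqp, ?_⟩
  have : ((q : ℕ) : ZMod 3) = ((2 : ℕ) : ZMod 3) := by rw [he]; rfl
  rw [ZMod.natCast_eq_natCast_iff] at this
  exact this

noncomputable def nextP (n : ℕ) : ℕ := (exists_prime n).choose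

theorem nextP_spec (n : ℕ) : n < nextP n ∧ (nextP n).Prime ∧ nextP n % 3 = 2 :=
  (exists_prime n).choose_spec

noncomputable def pp : ℕ → ℕ
  | 0 => nextP (6 + 3 ^ 9)
  | i + 1 => nextP (pp i + (pp i) ^ ((3 * 3 ^ i + 2) ^ 2) + 3 ^ ((i + 4) ^ 2))

theorem pp_prime (i : ℕ) : (pp i).Prime := by
  cases i with
  | zero => exact (nextP_spec _).2.1
  | succ i => exact (nextP_spec _).2.1

theorem pp_mod (i : ℕ) : pp i % 3 = 2 := by
  cases i with
  | zero => exact (nextP_spec _).2.2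
  | succ i => exact (nextP_spec _).2.2

theorem pp_lt (i : ℕ) : pp i + (pp i) ^ ((3 * 3 ^ i + 2) ^ 2) + 3 ^ ((i + 4) ^ 2) < pp (i + 1) :=
  (nextP_spec _).1

theorem pp_mono : StrictMono pp := by
  refine strictMono_nat_of_lt_succ fun i => ?_
  have := pp_lt i
  exact lt_of_le_of_lt (le_trans (Nat.le_add_right _ _) (Nat.le_add_right _ _)) this

theorem pp_big (i : ℕ) : 3 ^ ((i + 3) ^ 2) < pp i := by
  cases i with
  | zero =>
    have : 6 + 3 ^ 9 < pp 0 := (nextP_spec _).1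
    norm_num at this ⊢
    omega
  | succ i =>
    have := pp_lt i
    have e : (i + 1 + 3) = i + 4 := by ring
    rw [e]
    omega

theorem gr : S_GR := by
  refine ⟨pp, ⟨pp_mono, pp_prime, pp_mod, fun i => ?_⟩, ?_⟩
  · have h1 := pp_mono.monotone (Nat.zero_le i)
    have : 6 + 3 ^ 9 < pp 0 := (nextP_spec _).1
    omega
  · rintro c b hc hb ⟨f, ⟨-, b1, hb1, hfreq⟩, ⟨⟨a2, ha2, hle⟩, -⟩⟩
    obtain ⟨m, hm⟩ := exists_nat_gt (a2 / b1)
    have := (hfreq.and_eventually (Filter.eventually_ge_atTop (pp (m + 1)))).exists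
    obtain ⟨n, hn1, hn2⟩ := this
    -- find i with pp i ≤ n < pp (i+1)
    have hex : ∃ j, n < pp j := ⟨n + 1, lt_of_lt_of_le (Nat.lt_succ_self n) (pp_mono.id_le _)⟩
    classical
    obtain ⟨j, hj⟩ : ∃ j, Nat.find hex = j := ⟨_, rfl⟩
    have hj1 : n < pp j := hj ▸ Nat.find_spec hex
    have hjm : m + 1 < j := by
      by_contra hcon
      have := pp_mono.monotone (not_lt.mp hcon)
      omega
    obtain ⟨i, rfl⟩ : ∃ i, j = i + 2 := ⟨j - 2, by omega⟩
    have hj2 : pp (i + 1) ≤ n := by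
      have := Nat.find_min hex (m := i + 1) (by omega)
      exact not_lt.mp this
    have hcn : c n ≤ 3 ^ (i + 2) := hc n _ hj1
    have hbn : pp i ≤ b n := by
      apply hb n i
      have := pp_lt i
      exact le_trans (le_trans (Nat.le_add_left _ _) (Nat.le_add_right _ _)) (this.le.trans hj2)
    have hbn' : 3 ^ ((i + 3) ^ 2) < b n := lt_of_lt_of_le (pp_big i) hbn
    have hn0 : 1 ≤ n := by
      have := (pp_prime (i + 1)).one_lt
      omega
    have h1 : (b n : ℝ) ≤ (f n : ℝ) ^ a2 := hle n hn0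
    have hf0 : (0 : ℝ) ≤ f n := (f n).2
    have h2 : (f n : ℝ) ^ a2 = ((f n : ℝ) ^ b1) ^ (a2 / b1) := by
      rw [← Real.rpow_mul hf0]
      congr 1
      field_simp
    have h3 : ((f n : ℝ) ^ b1) ^ (a2 / b1) ≤ (c n : ℝ) ^ (a2 / b1) :=
      Real.rpow_le_rpow (Real.rpow_nonneg hf0 _) hn1 (by positivity)
    have h4 : (c n : ℝ) ^ (a2 / b1) ≤ ((3 : ℝ) ^ (i + 2)) ^ (a2 / b1) := by
      refine Real.rpow_le_rpow (Nat.cast_nonneg _) ?_ (by positivity)
      exact_mod_cast hcn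
    have h5 : ((3 : ℝ) ^ (i + 2)) ^ (a2 / b1) ≤ ((3 : ℝ) ^ (i + 2)) ^ ((i + 2 : ℕ) : ℝ) := by
      refine Real.rpow_le_rpow_of_exponent_le ?_ ?_
      · exact one_le_pow₀ (by norm_num)
      · refine hm.le.trans ?_
        exact_mod_cast (by omega : m ≤ i + 2)
    have h6 : ((3 : ℝ) ^ (i + 2)) ^ ((i + 2 : ℕ) : ℝ) = (3 : ℝ) ^ ((i + 2) * (i + 2)) := by
      rw [Real.rpow_natCast, ← pow_mul]
    have h7 : (b n : ℝ) ≤ (3 : ℝ) ^ ((i + 2) * (i + 2)) := by
      rw [← h6]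
      exact h1.trans (h2.le.trans (h3.trans (h4.trans h5)))
    have h8 : b n ≤ 3 ^ ((i + 2) * (i + 2)) := by exact_mod_cast h7
    have h9 : (3 : ℕ) ^ ((i + 2) * (i + 2)) ≤ 3 ^ ((i + 3) ^ 2) := by
      refine Nat.pow_le_pow_right (by norm_num) ?_
      nlinarith
    omega

end Pool.Agent.Q22.CG
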