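import Pool.Agent.Q22.CG.Final
import Pool.Agent.Q22.CG.GR
import Pool.Agent.Q22.CG.G24
import Pool.Agent.Q175.CG22.Fg
import Pool.Agent.Q175.CG22.Prop
import Pool.Agent.Q285.CG.Cl
import Pool.Agent.Q285.CG.Cnt
import Pool.Agent.Q176.CG.Q34
import Pool.Agent.Q176.CG.G156
import Pool.Agent.Q177.CG.Rig
import Pool.Agent.Q177.CG.Q12
import Pool.Agent.Q275.CG.Out

namespace Pool.Agent.Q22.CG

theorem cnt : S_CNT :=
  Pool.Agent.Q285.CG.cnt Pool.Agent.Q285.CG.cl Pool.Agent.Q177.CG.q1 Pool.Agent.Q177.CG.q2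
    Pool.Agent.Q176.CG.q3 Pool.Agent.Q176.CG.q4 Pool.Agent.Q176.CG.jj g2 Pool.Agent.Q176.CG.g3 g4

theorem prop : S_PROP :=
  Pool.Agent.Q175.CG22.prop Pool.Agent.Q285.CG.cl Pool.Agent.Q177.CG.q2 Pool.Agent.Q176.CG.q3
    Pool.Agent.Q176.CG.g1 g2 Pool.Agent.Q176.CG.g3 g4 Pool.Agent.Q176.CG.g6

theorem main' (hOUT : S_OUT) : S_FINAL :=
  final Pool.Agent.Q175.CG22.fg Pool.Agent.Q175.CG22.fin Pool.Agent.Q175.CG22.aut hOUT
    Pool.Agent.Q177.CG.rig Pool.Agent.Q176.CG.g1 Pool.Agent.Q176.CG.g5 cnt prop gr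

theorem main : S_FINAL :=
  main' Pool.Agent.Q275.CG.out

end Pool.Agent.Q22.CG
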