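import Pool.Agent.Q22.CG.Ring

set_option linter.unusedSectionVars false

namespace Pool.Agent.Q22.CG

section Blk

variable {X : Type} [Fintype X] [DecidableEq X] {F : Type} [Field F]

/-- block matrix with `M` at the place `(a, b)` -/
def Nb (a b : Fin 3) (M : Matrix X X F) : Matrix ((Fin 3 × X) ⊕ Fin 2) ((Fin 3 × X) ⊕ Fin 2) F :=
  fun u w => match u, w with
    | Sum.inl (a', s), Sum.inl (b', t) => if a' = a ∧ b' = b then M s t else 0
    | _, _ => 0

/-- column `v` at the place `(a, c)` -/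
def Nt (a : Fin 3) (c : Fin 2) (v : X → F) :
    Matrix ((Fin 3 × X) ⊕ Fin 2) ((Fin 3 × X) ⊕ Fin 2) F :=
  fun u w => match u, w with
    | Sum.inl (a', s), Sum.inr c' => if a' = a ∧ c' = c then v s else 0
    | _, _ => 0

theorem Nb_mul_Nb (a b b' c : Fin 3) (M N : Matrix X X F) :
    Nb a b M * Nb b' c N = if b = b' then Nb a c (M * N) else 0 := by
  ext u w
  rw [Matrix.mul_apply, Fintype.sum_sum_type, Fintype.sum_prod_type]
  rcases u with ⟨a', s⟩ | c1
  · rcases w with ⟨b1, t⟩ | c2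
    · by_cases h : b = b'
      · subst h
        rw [if_pos rfl]
        simp only [Nb, mul_zero, Finset.sum_const_zero, add_zero]
        rw [Finset.sum_eq_single b]
        · by_cases h1 : a' = a
          · by_cases h2 : b1 = c
            · simp [h1, h2, Matrix.mul_apply]
            · simp [h2]
          · simp [h1]
        · intro d _ hd
          refine Finset.sum_eq_zero fun t' _ => ?_
          simp [hd]
        · simp
      · rw [if_neg h]
        simp only [Nb, mul_zero, Finset.sum_const_zero, add_zero, Matrix.zero_apply]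
        refine Finset.sum_eq_zero fun d _ => Finset.sum_eq_zero fun t' _ => ?_
        by_cases h1 : d = b
        · subst h1; simp [h]
        · simp [h1]
    · simp only [Nb, mul_zero, Finset.sum_const_zero, add_zero]
      split_ifs <;> rfl
  · simp only [Nb, zero_mul, Finset.sum_const_zero, add_zero]
    split_ifs <;> rfl

theorem Nb_mul_Nt (a b b' : Fin 3) (c : Fin 2) (M : Matrix X X F) (v : X → F) :
    Nb a b M * Nt b' c v = if b = b' then Nt a c (M.mulVec v) else 0 := by
  ext u w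
  rw [Matrix.mul_apply, Fintype.sum_sum_type, Fintype.sum_prod_type]
  rcases u with ⟨a', s⟩ | c1
  · rcases w with ⟨b1, t⟩ | c2
    · simp only [Nb, Nt, mul_zero, Finset.sum_const_zero, add_zero]
      split_ifs <;> rfl
    · by_cases h : b = b'
      · subst h
        rw [if_pos rfl]
        simp only [Nb, Nt, mul_zero, Finset.sum_const_zero, add_zero, zero_mul]
        rw [Finset.sum_eq_single b]
        · by_cases h1 : a' = a
          · by_cases h2 : c2 = c
            · simp [h1, h2, Matrix.mulVec, dotProduct]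
            · simp [h2]
          · simp [h1]
        · intro d _ hd
          refine Finset.sum_eq_zero fun t' _ => ?_
          simp [hd]
        · simp
      · rw [if_neg h]
        simp only [Nb, Nt, mul_zero, Finset.sum_const_zero, add_zero, Matrix.zero_apply]
        refine Finset.sum_eq_zero fun d _ => Finset.sum_eq_zero fun t' _ => ?_
        by_cases h1 : d = b
        · subst h1; simp [h]
        · simp [h1]
  · simp only [Nb, zero_mul, Finset.sum_const_zero, add_zero]
    split_ifs <;> rfl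

theorem Nt_mul_Nb (a b' b : Fin 3) (c : Fin 2) (M : Matrix X X F) (v : X → F) :
    Nt a c v * Nb b' b M = 0 := by
  ext u w
  rw [Matrix.mul_apply, Fintype.sum_sum_type]
  rcases u with ⟨a', s⟩ | c1
  · rcases w with ⟨b1, t⟩ | c2
    · simp [Nb, Nt]
    · simp [Nb, Nt]
  · simp [Nt]

theorem Nt_mul_Nt (a b : Fin 3) (c d : Fin 2) (v w : X → F) :
    Nt a c v * Nt b d w = 0 := by
  ext u w
  rw [Matrix.mul_apply, Fintype.sum_sum_type]
  rcases u with ⟨a', s⟩ | c1
  · rcases w with ⟨b1, t⟩ | c2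
    · simp [Nt]
    · simp [Nt]
  · simp [Nt]

theorem Nb_add (a b : Fin 3) (M N : Matrix X X F) : Nb a b (M + N) = Nb a b M + Nb a b N := by
  ext u w
  rcases u with ⟨a', s⟩ | c1 <;> rcases w with ⟨b1, t⟩ | c2 <;> simp [Nb]
  split_ifs <;> simp

theorem Nb_neg (a b : Fin 3) (M : Matrix X X F) : Nb a b (-M) = - Nb a b M := by
  ext u w
  rcases u with ⟨a', s⟩ | c1 <;> rcases w with ⟨b1, t⟩ | c2 <;> simp [Nb]
  split_ifs <;> simp

theorem Nb_zero (a b : Fin 3) : Nb a b (0 : Matrix X X F) = 0 := by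
  ext u w
  rcases u with ⟨a', s⟩ | c1 <;> rcases w with ⟨b1, t⟩ | c2 <;> simp [Nb]

theorem Nt_add (a : Fin 3) (c : Fin 2) (v w : X → F) : Nt a c (v + w) = Nt a c v + Nt a c w := by
  ext u w
  rcases u with ⟨a', s⟩ | c1 <;> rcases w with ⟨b1, t⟩ | c2 <;> simp [Nt]
  split_ifs <;> simp

theorem Nt_neg (a : Fin 3) (c : Fin 2) (v : X → F) : Nt a c (-v) = - Nt a c v := by
  ext u w
  rcases u with ⟨a', s⟩ | c1 <;> rcases w with ⟨b1, t⟩ | c2 <;> simp [Nt]
  split_ifs <;> simp

theorem Nt_zero (a : Fin 3) (c : Fin 2) : Nt a c (0 : X → F) = 0 := by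
  ext u w
  rcases u with ⟨a', s⟩ | c1 <;> rcases w with ⟨b1, t⟩ | c2 <;> simp [Nt]

/-- the unit `1 + A`, `A² = 0` -/
def oneAdd {n : Type} [Fintype n] [DecidableEq n] (A : Matrix n n F) (h : A * A = 0) :
    (Matrix n n F)ˣ where
  val := 1 + A
  inv := 1 - A
  val_inv := by
    have : (1 + A) * (1 - A) = 1 - A * A := by noncomm_ring
    rw [this, h, sub_zero]
  inv_val := by
    have : (1 - A) * (1 + A) = 1 - A * A := by noncomm_ring
    rw [this, h, sub_zero]

theorem comm_oneAdd {n : Type} [Fintype n] [DecidableEq n] (A B : Matrix n n F)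
    (hA : A * A = 0) (hB : B * B = 0) (hBA : B * A = 0) :
    ((oneAdd A hA * oneAdd B hB * (oneAdd A hA)⁻¹ * (oneAdd B hB)⁻¹ : (Matrix n n F)ˣ) :
      Matrix n n F) = 1 + A * B := by
  show (1 + A) * (1 + B) * (1 - A) * (1 - B) = 1 + A * B
  have e : (1 + A) * (1 + B) * (1 - A) * (1 - B) =
      1 + A * B - A * A - B * B - A * B * B + A * A * B - B * A + B * A * B - A * (B * A)
        + A * (B * A) * B := by
    noncomm_ring
  rw [e]
  rw [mul_assoc A B B, mul_assoc B A B, hA, hB]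
  rw [show B * (A * B) = (B * A) * B by rw [mul_assoc], hBA]
  simp

end Blk

variable (p : ℕ → ℕ) [∀ i, Fact (p i).Prime]

theorem EM_eq (a b : Fin 3) (r : RR p) (i : ℕ) : EM p a b r i = 1 + Nb a b (r i) := by
  ext u w
  rcases u with ⟨a', s⟩ | c1 <;> rcases w with ⟨b1, t⟩ | c2 <;>
    simp [EM, Nb, Matrix.one_apply]

theorem TM_eq (a : Fin 3) (c : Fin 2) (v : MM p) (i : ℕ) : TM p a c v i = 1 + Nt a c (v i) := by
  ext u w
  rcases u with ⟨a', s⟩ | c1 <;> rcases w with ⟨b1, t⟩ | c2 <;>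
    simp [TM, Nt, Matrix.one_apply]

theorem Nb_sq {X : Type} [Fintype X] [DecidableEq X] {F : Type} [Field F] {a b : Fin 3}
    (h : a ≠ b) (M : Matrix X X F) : Nb a b M * Nb a b M = 0 := by
  rw [Nb_mul_Nb, if_neg (Ne.symm h)]

/-- `E_{ab}(r)` -/
def eU (a b : Fin 3) (h : a ≠ b) (r : RR p) : Amb p := fun i => oneAdd (Nb a b (r i)) (Nb_sq h _)

/-- `T_{ac}(v)` -/
def tU (a : Fin 3) (c : Fin 2) (v : MM p) : Amb p :=
  fun i => oneAdd (Nt a c (v i)) (Nt_mul_Nt a a c c _ _)

theorem eU_mem (a b : Fin 3) (h : a ≠ b) (r : RR p) (hr : r ∈ Rg p) : eU p a b h r ∈ GG p := by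
  refine Subgroup.subset_closure (Or.inl ⟨a, b, r, h, hr, fun i => ?_⟩)
  rw [EM_eq]; rfl

theorem tU_mem (a : Fin 3) (c : Fin 2) (r : RR p) (hr : r ∈ Rg p) :
    tU p a c (fun j => (r j).mulVec (m0 p j)) ∈ GG p := by
  refine Subgroup.subset_closure (Or.inr ⟨a, c, r, hr, fun i => ?_⟩)
  rw [TM_eq]; rfl

theorem eU_mul (a b : Fin 3) (h : a ≠ b) (r s : RR p) :
    eU p a b h r * eU p a b h s = eU p a b h (r + s) := by
  funext i
  apply Units.ext
  show (1 + Nb a b (r i)) * (1 + Nb a b (s i)) = 1 + Nb a b (r i + s i)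
  rw [Nb_add, mul_add, add_mul, add_mul, Nb_mul_Nb, if_neg (Ne.symm h)]
  noncomm_ring

theorem tU_mul (a : Fin 3) (c : Fin 2) (v w : MM p) :
    tU p a c v * tU p a c w = tU p a c (v + w) := by
  funext i
  apply Units.ext
  show (1 + Nt a c (v i)) * (1 + Nt a c (w i)) = 1 + Nt a c (v i + w i)
  rw [Nt_add, mul_add, add_mul, add_mul, Nt_mul_Nt]
  noncomm_ring

theorem eU_comm (a b c : Fin 3) (hab : a ≠ b) (hbc : b ≠ c) (hac : a ≠ c) (r s : RR p) :
    eU p a b hab r * eU p b c hbc s * (eU p a b hab r)⁻¹ * (eU p b c hbc s)⁻¹ =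
      eU p a c hac (r * s) := by
  funext i
  apply Units.ext
  refine (comm_oneAdd (Nb a b (r i)) (Nb b c (s i)) _ _ ?_).trans ?_
  · rw [Nb_mul_Nb, if_neg (Ne.symm hac)]
  · rw [Nb_mul_Nb, if_pos rfl]; rfl

theorem eU_tU_comm (a b : Fin 3) (c : Fin 2) (hab : a ≠ b) (r : RR p) (v : MM p) :
    eU p a b hab r * tU p b c v * (eU p a b hab r)⁻¹ * (tU p b c v)⁻¹ =
      tU p a c (fun j => (r j).mulVec (v j)) := by
  funext i
  apply Units.ext
  refine (comm_oneAdd (Nb a b (r i)) (Nt b c (v i)) _ _ ?_).trans ?_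
  · rw [Nt_mul_Nb]
  · rw [Nb_mul_Nt, if_pos rfl]; rfl

end Pool.Agent.Q22.CG
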