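import Mathlib

/-!
# Definitions for MP_216434_al (characteristic versus normal subgroup growth, finite Out)
-/

namespace Pool.Agent.Q22.CG

open Classical in
/-- number of normal subgroups of (finite) index at most `n` -/
noncomputable def normCount (Γ : Type) [Group Γ] (n : ℕ) : ℕ :=
  Nat.card {N : Subgroup Γ // N.Normal ∧ N.index ≠ 0 ∧ N.index ≤ n}

/-- number of characteristic subgroups of (finite) index at most `n` -/
noncomputable def charCount (Γ : Type) [Group Γ] (n : ℕ) : ℕ :=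
  Nat.card {N : Subgroup Γ // N.Characteristic ∧ N.index ≠ 0 ∧ N.index ≤ n}

/-- number of `α`-invariant normal subgroups of (finite) index at most `n` -/
noncomputable def invCount (G : Type) [Group G] (α : G ≃* G) (n : ℕ) : ℕ :=
  Nat.card {N : Subgroup G // N.Normal ∧ N.map α.toMonoidHom = N ∧ N.index ≠ 0 ∧ N.index ≤ n}

/-! ## The group `Gam U` -/

section Gam

variable {P : Type} [Group P]

/-- `s(L, U, x)`: the set of those `l ∈ L` with `l⁻¹ x ∈ U` -/
noncomputable def pat (U : Set P) (L : Finset P) (x : P) : Finset P := by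
  classical exact L.filter (fun l => l⁻¹ * x ∈ U)

theorem mem_pat (U : Set P) (L : Finset P) (x l : P) :
    l ∈ pat U L x ↔ l ∈ L ∧ l⁻¹ * x ∈ U := by
  classical
  simp [pat]

/-- the Boolean algebra of all sets which up to finite sets are Boolean combinations of the
left translates of `U` -/
def Alg (U : Set P) : Set (Set P) :=
  {A | ∃ (L : Finset P) (E : Set (Finset P)), {x | ¬ (x ∈ A ↔ pat U L x ∈ E)}.Finite}

theorem alg_of_eq {U A : Set P} (L : Finset P) (E : Set (Finset P))
    (h : ∀ x, x ∈ A ↔ pat U L x ∈ E) : A ∈ Alg U := by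
  refine ⟨L, E, ?_⟩
  have : {x | ¬ (x ∈ A ↔ pat U L x ∈ E)} = ∅ := by
    ext x; simp [h x]
  rw [this]; exact Set.finite_empty

theorem alg_finite {U A : Set P} (hA : A.Finite) : A ∈ Alg U := by
  refine ⟨∅, ∅, ?_⟩
  refine hA.subset ?_
  intro x hx
  by_contra h
  exact hx (by simp [h])

theorem alg_univ (U : Set P) : Set.univ ∈ Alg U :=
  alg_of_eq ∅ Set.univ (by simp)

theorem alg_compl {U A : Set P} (hA : A ∈ Alg U) : Aᶜ ∈ Alg U := by
  obtain ⟨L, E, h⟩ := hA
  refine ⟨L, Eᶜ, h.subset ?_⟩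
  intro x hx
  simp only [Set.mem_ofPred_eq, Set.mem_compl_iff] at hx ⊢
  tauto

theorem alg_inter {U A B : Set P} (hA : A ∈ Alg U) (hB : B ∈ Alg U) : A ∩ B ∈ Alg U := by
  classical
  obtain ⟨L, E, h⟩ := hA
  obtain ⟨L', E', h'⟩ := hB
  refine ⟨L ∪ L', {S | S ∩ L ∈ E ∧ S ∩ L' ∈ E'}, (h.union h').subset ?_⟩
  intro x hx
  have e1 : pat U (L ∪ L') x ∩ L = pat U L x := by
    ext l; simp only [Finset.mem_inter, mem_pat, Finset.mem_union]; tauto
  have e2 : pat U (L ∪ L') x ∩ L' = pat U L' x := by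
    ext l; simp only [Finset.mem_inter, mem_pat, Finset.mem_union]; tauto
  simp only [Set.mem_ofPred_eq, Set.mem_inter_iff, e1, e2, Set.mem_union] at hx ⊢
  tauto

theorem alg_union {U A B : Set P} (hA : A ∈ Alg U) (hB : B ∈ Alg U) : A ∪ B ∈ Alg U := by
  have := alg_compl (alg_inter (alg_compl hA) (alg_compl hB))
  rwa [Set.compl_inter, compl_compl, compl_compl] at this

theorem alg_biUnion {ι : Type*} {U : Set P} (s : Finset ι) (A : ι → Set P)
    (h : ∀ i ∈ s, A i ∈ Alg U) : (⋃ i ∈ s, A i) ∈ Alg U := by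
  classical
  induction s using Finset.induction_on with
  | empty => simpa using alg_finite Set.finite_empty
  | insert a s ha ih =>
    rw [Finset.set_biUnion_insert]
    exact alg_union (h a (Finset.mem_insert_self a s))
      (ih fun i hi => h i (Finset.mem_insert_of_mem hi))

/-- the algebra is invariant under left translations -/
theorem alg_translate {U A : Set P} (p : P) (hA : A ∈ Alg U) : {x | p⁻¹ * x ∈ A} ∈ Alg U := by
  classical
  obtain ⟨L, E, h⟩ := hA
  refine ⟨L.image (fun l => p * l), {S | S.image (fun l => p⁻¹ * l) ∈ E},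
    (h.preimage (f := fun x => p⁻¹ * x) (by intro a _ b _ hab; simpa using hab)).subset ?_⟩
  intro x hx
  have e : (pat U (L.image (fun l => p * l)) x).image (fun l => p⁻¹ * l) = pat U L (p⁻¹ * x) := by
    ext l
    simp only [Finset.mem_image, mem_pat]
    constructor
    · rintro ⟨m, ⟨⟨l', hl', rfl⟩, hm⟩, rfl⟩
      refine ⟨by simpa using hl', ?_⟩
      simpa [mul_assoc] using hm
    · rintro ⟨hl, hm⟩
      exact ⟨p * l, ⟨⟨l, hl, rfl⟩, by simpa [mul_assoc] using hm⟩, by simp⟩
  have hx' : ¬ (p⁻¹ * x ∈ A ↔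
      (pat U (L.image (fun l => p * l)) x).image (fun l => p⁻¹ * l) ∈ E) := hx
  rw [e] at hx'
  exact hx'

/-- the alternating group of degree five -/
abbrev A5 : Type := alternatingGroup (Fin 5)

theorem alg_fiber {U : Set P} {f : P → A5} (hf : ∀ s, {x | f x = s} ∈ Alg U)
    (Q : A5 → Prop) : {x | Q (f x)} ∈ Alg U := by
  classical
  have : {x | Q (f x)} = ⋃ s ∈ (Finset.univ.filter Q : Finset A5), {x | f x = s} := by
    ext x; simp
  rw [this]
  exact alg_biUnion _ _ fun s _ => hf s

theorem alg_fiber₂ {U : Set P} {f g : P → A5} (hf : ∀ s, {x | f x = s} ∈ Alg U)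
    (hg : ∀ s, {x | g x = s} ∈ Alg U) (Q : A5 → A5 → Prop) : {x | Q (f x) (g x)} ∈ Alg U := by
  classical
  have : {x | Q (f x) (g x)} = ⋃ s ∈ (Finset.univ : Finset A5), ({x | f x = s} ∩ {x | Q s (g x)}) := by
    ext x
    simp
  rw [this]
  exact alg_biUnion _ _ fun s _ => alg_inter (hf s) (alg_fiber hg (Q s))

/-- the base group: all functions `P → A5` whose level sets are in `Alg U` -/
def Bas (U : Set P) : Subgroup (P → A5) where
  carrier := {f | ∀ s, {x | f x = s} ∈ Alg U}
  mul_mem' := by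
    intro f g hf hg s
    exact alg_fiber₂ hf hg (fun a b => a * b = s)
  one_mem' := by
    intro s
    by_cases h : s = 1
    · subst h
      simpa using alg_univ U
    · have : {x : P | (1 : P → A5) x = s} = ∅ := by
        ext x; simp [Ne.symm h]
      rw [this]; exact alg_finite Set.finite_empty
  inv_mem' := by
    intro f hf s
    exact alg_fiber hf (fun a => a⁻¹ = s)

theorem mem_Bas (U : Set P) (f : P → A5) : f ∈ Bas U ↔ ∀ s, {x | f x = s} ∈ Alg U := Iff.rfl

/-- left translation of a function -/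
theorem shift_mem {U : Set P} (p : P) {f : P → A5} (hf : f ∈ Bas U) :
    (fun x => f (p⁻¹ * x)) ∈ Bas U := fun s => alg_translate p (hf s)

/-- the action of `P` on the base group: `(p • f) x = f (p⁻¹ x)` -/
def sh (U : Set P) : P →* MulAut (Bas U) where
  toFun p :=
    { toFun := fun f => ⟨fun x => f.1 (p⁻¹ * x), shift_mem p f.2⟩
      invFun := fun f => ⟨fun x => f.1 (p * x), by
        have := shift_mem p⁻¹ f.2
        simpa using this⟩
      left_inv := by intro f; ext x; simp
      right_inv := by intro f; ext x; simp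
      map_mul' := by intro f g; rfl }
  map_one' := by ext f x; simp
  map_mul' := by intro p q; ext f x; simp [mul_assoc]

/-- the group `Γ = C(Alg U, A5) ⋊ P` -/
abbrev Gam (U : Set P) : Type := Bas U ⋊[sh U] P

end Gam

/-- a group without proper subgroups of finite index -/
def NoFin (K : Type) [Group K] : Prop := ∀ H : Subgroup K, H.index ≠ 0 → H = ⊤

/-! ## The finite groups `QG` -/

/-- the group generated by the transvections `1 + c e_{u,w}` with `u ∈ ι`, `w ∈ ι ⊕ Fin 2` -/
def QG (ι : Type) [Fintype ι] [DecidableEq ι] (F : Type) [Field F] :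
    Subgroup (Matrix (ι ⊕ Fin 2) (ι ⊕ Fin 2) F)ˣ :=
  Subgroup.closure {g | ∃ (u : ι) (w : ι ⊕ Fin 2) (c : F), Sum.inl u ≠ w ∧
    (g : Matrix (ι ⊕ Fin 2) (ι ⊕ Fin 2) F) = Matrix.transvection (Sum.inl u) w c}

/-- `g = [[1, v], [0, 1]]` where every row of `v` is in `ℓ` -/
def InV {ι : Type} [Fintype ι] [DecidableEq ι] {F : Type} [Field F]
    (ℓ : Submodule F (Fin 2 → F)) (g : Matrix (ι ⊕ Fin 2) (ι ⊕ Fin 2) F) : Prop :=
  (∀ u u' : ι, g (Sum.inl u) (Sum.inl u') = if u = u' then 1 else 0) ∧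
    ∀ u : ι, (fun c : Fin 2 => g (Sum.inl u) (Sum.inr c)) ∈ ℓ

/-! ## The ring `Rg` and the group `GG` -/

/-- index set of the `i`-th block -/
abbrev Ix (i : ℕ) : Type := Fin 3 × Fin (3 ^ i)

section Big

variable (p : ℕ → ℕ) [∀ i, Fact (p i).Prime]

/-- the product of the matrix rings -/
abbrev RR : Type := ∀ i : ℕ, Matrix (Fin (3 ^ i)) (Fin (3 ^ i)) (ZMod (p i))

/-- the product of the column modules -/
abbrev MM : Type := ∀ i : ℕ, Fin (3 ^ i) → ZMod (p i)

/-- the cyclic shift `e_a ↦ e_{a+1}` -/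
def xx : RR p := fun i => Matrix.of fun b a => if (b : ℕ) = ((a : ℕ) + 1) % 3 ^ i then 1 else 0

/-- `e_a ↦ e_{3a}` if `3a < 3^i`, `e_a ↦ 0` otherwise -/
def tt : RR p := fun i => Matrix.of fun b a => if (b : ℕ) = 3 * (a : ℕ) then 1 else 0

/-- the finitely generated ring -/
def Rg : Subring (RR p) :=
  Subring.closure {xx p, fun i => (xx p i).transpose, tt p, fun i => (tt p i).transpose}

/-- the vector `e_0` in every coordinate -/
def m0 : MM p := fun i a => if (a : ℕ) = 0 then 1 else 0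

/-- the ambient group -/
abbrev Amb : Type := ∀ i : ℕ, (Matrix (Ix i ⊕ Fin 2) (Ix i ⊕ Fin 2) (ZMod (p i)))ˣ

/-- the block elementary matrix `1 + r e_{ab}` -/
def EM (a b : Fin 3) (r : RR p) (i : ℕ) : Matrix (Ix i ⊕ Fin 2) (Ix i ⊕ Fin 2) (ZMod (p i)) :=
  fun u w => (if u = w then 1 else 0) +
    match u, w with
    | Sum.inl (a', s), Sum.inl (b', t) => if a' = a ∧ b' = b then r i s t else 0
    | _, _ => 0

/-- the matrix `1 + v e_{a,c}`, `v` a column vector, `c ∈ Fin 2` -/
def TM (a : Fin 3) (c : Fin 2) (v : MM p) (i : ℕ) :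
    Matrix (Ix i ⊕ Fin 2) (Ix i ⊕ Fin 2) (ZMod (p i)) :=
  fun u w => (if u = w then 1 else 0) +
    match u, w with
    | Sum.inl (a', s), Sum.inr c' => if a' = a ∧ c' = c then v i s else 0
    | _, _ => 0

/-- the finitely generated group `G` -/
def GG : Subgroup (Amb p) :=
  Subgroup.closure
    ({g | ∃ (a b : Fin 3) (r : RR p), a ≠ b ∧ r ∈ Rg p ∧
        ∀ i, (g i : Matrix (Ix i ⊕ Fin 2) (Ix i ⊕ Fin 2) (ZMod (p i))) = EM p a b r i} ∪
     {g | ∃ (a : Fin 3) (c : Fin 2) (r : RR p), r ∈ Rg p ∧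
        ∀ i, (g i : Matrix (Ix i ⊕ Fin 2) (Ix i ⊕ Fin 2) (ZMod (p i))) =
          TM p a c (fun j => (r j).mulVec (m0 p j)) i})

/-- the elements of `G` with finite support -/
def DD : Subgroup (GG p) where
  carrier := {g | {i | (g : Amb p) i ≠ 1}.Finite}
  mul_mem' := by
    intro g h hg hh
    refine (hg.union hh).subset ?_
    intro i hi
    by_contra hcon
    simp only [Set.mem_union, Set.mem_ofPred_eq, not_or, not_not] at hcon
    exact hi (by simp [hcon.1, hcon.2])
  one_mem' := by simp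
  inv_mem' := by
    intro g hg
    refine hg.subset ?_
    intro i hi hcon
    exact hi (by simpa using hcon)

instance : (DD p).Normal where
  conj_mem := by
    intro g hg h
    refine Set.Finite.subset hg ?_
    intro i hi hcon
    exact hi (by simp [hcon])

/-- the matrix `diag(1, J)`, `J = [[0, 1], [-1, -1]]` of order three -/
def Jd (ι : Type) [DecidableEq ι] (F : Type) [Field F] : Matrix (ι ⊕ Fin 2) (ι ⊕ Fin 2) F :=
  Matrix.fromBlocks 1 0 0 !![0, 1; -1, -1]

end Big

end Pool.Agent.Q22.CG
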