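import Pool.Agent.Q22.CG.Stm

namespace Pool.Agent.Q22.CG

open scoped NNReal

/-- normal subgroups of finite index correspond when all of them contain the kernel -/
theorem normCount_eq {Γ G : Type} [Group Γ] [Group G] (π : Γ →* G)
    (hπ : Function.Surjective π)
    (h : ∀ N : Subgroup Γ, N.Normal → N.index ≠ 0 → ∀ γ, π γ = 1 → γ ∈ N) (n : ℕ) :
    normCount Γ n = normCount G n := by
  unfold normCount
  refine Nat.card_congr ?_
  refine
    { toFun := fun N => ⟨N.1.map π, ?_⟩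
      invFun := fun M => ⟨M.1.comap π, ?_⟩
      left_inv := ?_
      right_inv := ?_ }
  · obtain ⟨N, hN, h0, hn⟩ := N
    have hker : π.ker ≤ N := fun γ hγ => h N hN h0 γ hγ
    have hidx : (N.map π).index = N.index := by
      rw [Subgroup.index_map]
      rw [sup_eq_left.mpr hker, MonoidHom.range_eq_top.mpr hπ]
      simp
    exact ⟨hN.map π hπ, by rw [hidx]; exact h0, by rw [hidx]; exact hn⟩
  · obtain ⟨M, hM, h0, hn⟩ := M
    have hidx : (M.comap π).index = M.index := Subgroup.index_comap_of_surjective M hπ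
    exact ⟨hM.comap π, by rw [hidx]; exact h0, by rw [hidx]; exact hn⟩
  · rintro ⟨N, hN, h0, hn⟩
    have hker : π.ker ≤ N := fun γ hγ => h N hN h0 γ hγ
    simp only [Subtype.mk.injEq]
    rw [Subgroup.comap_map_eq, sup_eq_left.mpr hker]
  · rintro ⟨M, hM, h0, hn⟩
    simp only [Subtype.mk.injEq]
    exact Subgroup.map_comap_eq_self_of_surjective hπ M

/-- characteristic subgroups of finite index give `α`-invariant normal subgroups -/
theorem charCount_le {Γ G : Type} [Group Γ] [Group G] (π : Γ →* G)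
    (hπ : Function.Surjective π)
    (h : ∀ N : Subgroup Γ, N.Normal → N.index ≠ 0 → ∀ γ, π γ = 1 → γ ∈ N)
    (α : G ≃* G) (β : Γ ≃* Γ) (hβ : ∀ γ, π (β γ) = α (π γ)) (n : ℕ)
    (hfin : {N : Subgroup G | N.Normal ∧ N.index ≠ 0 ∧ N.index ≤ n}.Finite) :
    charCount Γ n ≤ invCount G α n := by
  unfold charCount invCount
  have hfin' : Finite {N : Subgroup G // N.Normal ∧ N.map α.toMonoidHom = N ∧ N.index ≠ 0 ∧
      N.index ≤ n} := by
    refine Set.Finite.subset hfin ?_
    intro N hN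
    exact ⟨hN.1, hN.2.2.1, hN.2.2.2⟩
  refine Nat.card_le_card_of_injective (fun N => ⟨N.1.map π, ?_⟩) ?_
  · obtain ⟨N, hN, h0, hn⟩ := N
    have hNn : N.Normal := Subgroup.normal_of_characteristic N
    have hker : π.ker ≤ N := fun γ hγ => h N hNn h0 γ hγ
    have hidx : (N.map π).index = N.index := by
      rw [Subgroup.index_map]
      rw [sup_eq_left.mpr hker, MonoidHom.range_eq_top.mpr hπ]
      simp
    refine ⟨hNn.map π hπ, ?_, by rw [hidx]; exact h0, by rw [hidx]; exact hn⟩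
    have hmap : N.map β.toMonoidHom = N := Subgroup.characteristic_iff_map_eq.mp hN β
    have : (N.map π).map α.toMonoidHom = (N.map β.toMonoidHom).map π := by
      rw [Subgroup.map_map, Subgroup.map_map]
      congr 1
      ext γ
      simp [hβ]
    rw [this, hmap]
  · rintro ⟨N, hN, h0, hn⟩ ⟨M, hM, k0, kn⟩ hNM
    have hNn : N.Normal := Subgroup.normal_of_characteristic N
    have hMn : M.Normal := Subgroup.normal_of_characteristic M
    have hker : π.ker ≤ N := fun γ hγ => h N hNn h0 γ hγ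
    have hker' : π.ker ≤ M := fun γ hγ => h M hMn k0 γ hγ
    simp only [Subtype.mk.injEq] at hNM ⊢
    have := congrArg (Subgroup.comap π) hNM
    rwa [Subgroup.comap_map_eq, Subgroup.comap_map_eq, sup_eq_left.mpr hker,
      sup_eq_left.mpr hker'] at this

/-- the second part -/
theorem partII (hFG : S_FG) (hFIN : S_FIN) (hAUT : S_AUT) (hOUT : S_OUT) (hRIG : S_RIG)
    (G K : Type) [Group G] [Group K] (hG : Group.FG G) (hK : Group.FG K) (α : G ≃* G)
    (hα : ∀ x, α (α (α x)) = x) (hfix : ∀ H : Subgroup G, (∀ h ∈ H, α h = h) → H.index = 0)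
    (hsm : ∀ H : Subgroup G, H.index ≠ 0 → H.index ≤ 3 → H = ⊤) (hN : NoFin K)
    (hc : Subgroup.center K = ⊥) (k : K) (hk : k ≠ 1) (hk2 : k * k = 1)
    (hfin : ∀ n, {N : Subgroup G | N.Normal ∧ N.index ≠ 0 ∧ N.index ≤ n}.Finite) :
    ∃ (Γ : Type) (_ : Group Γ), Group.FG Γ ∧
      Finite (MulAut Γ ⧸ (MulAut.conj : Γ →* MulAut Γ).range) ∧
      (∀ n, normCount Γ n = normCount G n) ∧ ∀ n, charCount Γ n ≤ invCount G α n := by
  obtain ⟨U, hU1, hU2, hU3⟩ := hRIG G K hG hK α hα hfix hsm hN hc k hk hk2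
  have hP : Group.FG (G × K) := inferInstance
  obtain ⟨β, hβ⟩ := hAUT (G × K) U (extA K α) hU2
  let π : Gam U →* G := (MonoidHom.fst G K).comp SemidirectProduct.rightHom
  have hπ : Function.Surjective π := by
    intro g
    exact ⟨SemidirectProduct.inr (g, 1), by simp [π]⟩
  have hker : ∀ N : Subgroup (Gam U), N.Normal → N.index ≠ 0 → ∀ γ, π γ = 1 → γ ∈ N := by
    intro N hN' h0 γ hγ
    exact hFIN G K hN U k hU1 N hN' h0 γ hγ
  refine ⟨Gam U, inferInstance, hFG _ hP U (1, k) hU1, hOUT _ U (extA K α) ?_ hU2 hU3,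
    fun n => normCount_eq π hπ hker n, fun n => charCount_le π hπ hker α β ?_ n (hfin n)⟩
  · rintro ⟨x, y⟩
    change (α (α (α x)), y) = (x, y)
    rw [hα]
  · intro γ
    have := hβ γ
    simp only [π, MonoidHom.comp_apply, SemidirectProduct.rightHom_eq_right]
    rw [this]
    rfl

/-- the final theorem from the lemma statements -/
theorem final (hFG : S_FG) (hFIN : S_FIN) (hAUT : S_AUT) (hOUT : S_OUT) (hRIG : S_RIG)
    (hG1 : S_G1) (hG5 : S_G5) (hCNT : S_CNT) (hPROP : S_PROP) (hGR : S_GR) : S_FINAL := by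
  obtain ⟨p, hp, hgr⟩ := hGR
  haveI : ∀ i, Fact (p i).Prime := fun i => ⟨hp.prime i⟩
  obtain ⟨a, ha, ha3, hconj⟩ := hG5 p
  have hinv : a⁻¹ = a * a := by
    rw [inv_eq_iff_mul_eq_one]
    rw [← mul_assoc]; exact ha3
  have hconj' : ∀ g ∈ GG p, a⁻¹ * g * a ∈ GG p := by
    intro g hg
    have h2 := hconj _ (hconj g hg)
    have : a * (a * g * a⁻¹) * a⁻¹ = a⁻¹ * g * a := by
      rw [hinv]
      have e : (a * a)⁻¹ = a := by rw [← hinv]; simp
      calc a * (a * g * (a * a)) * (a * a) = (a * a) * g * (a * (a * a * a)) := by group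
        _ = a * a * g * a := by rw [ha3, mul_one]
    rw [this] at h2
    exact h2
  let α : GG p ≃* GG p :=
    { toFun := fun g => ⟨a * g * a⁻¹, hconj g g.2⟩
      invFun := fun g => ⟨a⁻¹ * g * a, hconj' g g.2⟩
      left_inv := by intro g; ext1; simp [mul_assoc]
      right_inv := by intro g; ext1; simp [mul_assoc]
      map_mul' := by intro g h; ext1; simp [mul_assoc] }
  have hαdef : ∀ g : GG p, ((α g : GG p) : Amb p) = a * (g : Amb p) * a⁻¹ := fun g => rfl
  have hα3 : ∀ x, α (α (α x)) = x := by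
    intro x
    apply Subtype.ext
    rw [hαdef, hαdef, hαdef]
    calc a * (a * (a * (x : Amb p) * a⁻¹) * a⁻¹) * a⁻¹
        = (a * a * a) * (x : Amb p) * (a * a * a)⁻¹ := by group
      _ = x := by rw [ha3]; simp
  obtain ⟨hf, hinvc, hnorm⟩ := hCNT p hp a α ha hαdef
  obtain ⟨P1, P2, P3, P4, P5, k, hk, hk2⟩ := hPROP p hp a α ha hαdef
  obtain ⟨Γ, iΓ, h1, h2, h3, h4⟩ := partII hFG hFIN hAUT hOUT hRIG (GG p) (GG p ⧸ DD p)
    (hG1 p) P3 α hα3 P1 P2 P4 P5 k hk hk2 hf
  refine ⟨Γ, iΓ, h1, h2, ?_⟩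
  refine hgr _ _ (fun n i hn => (h4 n).trans (hinvc n i hn)) (fun i n hn => ?_)
  rw [h3]
  exact hnorm i n hn

end Pool.Agent.Q22.CG
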