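import Pool.Agent.Q22.CG.Stm

namespace Pool.Agent.Q22.CG

variable (p : ℕ → ℕ) [∀ i, Fact (p i).Prime]

theorem xx_mem : xx p ∈ Rg p := Subring.subset_closure (by simp)
theorem xxT_mem : (fun i => (xx p i).transpose) ∈ Rg p := Subring.subset_closure (by simp)
theorem tt_mem : tt p ∈ Rg p := Subring.subset_closure (by simp)
theorem ttT_mem : (fun i => (tt p i).transpose) ∈ Rg p := Subring.subset_closure (by simp)

theorem tt_pow (i s : ℕ) (b a : Fin (3 ^ i)) :
    (tt p i ^ s) b a = if (b : ℕ) = 3 ^ s * (a : ℕ) then 1 else 0 := by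
  induction s generalizing b with
  | zero =>
    simp only [pow_zero, one_mul, Matrix.one_apply, Fin.ext_iff]
  | succ s ih =>
    rw [pow_succ', Matrix.mul_apply]
    by_cases h : (b : ℕ) = 3 ^ (s + 1) * (a : ℕ)
    · rw [if_pos h]
      have hlt : 3 ^ s * (a : ℕ) < 3 ^ i := by
        have := b.2
        rw [h, pow_succ] at this
        refine lt_of_le_of_lt ?_ this
        exact Nat.mul_le_mul_right _ (Nat.le_mul_of_pos_right _ (by norm_num))
      rw [Finset.sum_eq_single ⟨3 ^ s * (a : ℕ), hlt⟩]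
      · rw [ih]
        simp [tt, h, pow_succ]
        ring_nf
      · intro c _ hc
        rw [ih]
        rw [if_neg, mul_zero]
        intro h'
        exact hc (Fin.ext h')
      · simp
    · rw [if_neg h]
      refine Finset.sum_eq_zero fun c _ => ?_
      rw [ih]
      simp only [tt, Matrix.of_apply]
      by_cases h1 : (b : ℕ) = 3 * (c : ℕ)
      · by_cases h2 : (c : ℕ) = 3 ^ s * (a : ℕ)
        · exfalso
          apply h
          rw [h1, h2, pow_succ]
          ring
        · simp [h2]
      · simp [h1]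

theorem xx_pow (i s : ℕ) (b a : Fin (3 ^ i)) :
    (xx p i ^ s) b a = if (b : ℕ) = ((a : ℕ) + s) % 3 ^ i then 1 else 0 := by
  induction s generalizing b with
  | zero =>
    simp only [pow_zero, add_zero, Matrix.one_apply, Fin.ext_iff, Nat.mod_eq_of_lt a.2]
  | succ s ih =>
    rw [pow_succ', Matrix.mul_apply]
    have hpos : 0 < 3 ^ i := by positivity
    rw [Finset.sum_eq_single ⟨((a : ℕ) + s) % 3 ^ i, Nat.mod_lt _ hpos⟩]
    · rw [ih]
      simp [xx, add_assoc]
    · intro c _ hc
      rw [ih, if_neg, mul_zero]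
      intro h'
      exact hc (Fin.ext h')
    · simp

/-- `rho s` -/
def rho (s : ℕ) : RR p := tt p ^ s * (fun i => (tt p i).transpose) ^ s

theorem rho_mem (s : ℕ) : rho p s ∈ Rg p :=
  mul_mem (pow_mem (tt_mem p) s) (pow_mem (ttT_mem p) s)

theorem rho_apply (s i : ℕ) (b a : Fin (3 ^ i)) :
    rho p s i b a = if b = a ∧ 3 ^ s ∣ (b : ℕ) then 1 else 0 := by
  have e : rho p s i = (tt p i ^ s) * (tt p i ^ s).transpose := by
    simp [rho, Matrix.transpose_pow]
  rw [e, Matrix.mul_apply]
  simp only [Matrix.transpose_apply, tt_pow]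
  by_cases h : b = a ∧ 3 ^ s ∣ (b : ℕ)
  · rw [if_pos h]
    obtain ⟨rfl, c, hc⟩ := h
    have hlt : c < 3 ^ i := by
      have := b.2
      rw [hc] at this
      have h3 : 0 < 3 ^ s := by positivity
      nlinarith
    rw [Finset.sum_eq_single ⟨c, hlt⟩]
    · simp [hc]
    · intro d _ hd
      rw [if_neg]
      · simp
      · intro h'
        apply hd
        have h3 : 0 < 3 ^ s := by positivity
        exact Fin.ext (Nat.eq_of_mul_eq_mul_left h3 (h'.symm.trans hc))
    · simp
  · rw [if_neg h]
    refine Finset.sum_eq_zero fun c _ => ?_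
    by_cases h1 : (b : ℕ) = 3 ^ s * (c : ℕ)
    · by_cases h2 : (a : ℕ) = 3 ^ s * (c : ℕ)
      · exact absurd ⟨Fin.ext (h1.trans h2.symm), ⟨c, h1⟩⟩ h
      · simp [h2]
    · simp [h1]

theorem rho_diag (s i : ℕ) : rho p s i =
    Matrix.diagonal (fun b : Fin (3 ^ i) => if 3 ^ s ∣ (b : ℕ) then 1 else 0) := by
  ext b a
  rw [rho_apply, Matrix.diagonal_apply]
  by_cases h : b = a
  · subst h; simp
  · simp [h]

/-- `gg n`: `e_00` in the coordinates `< n`, zero in the coordinates `≥ n` -/
def gg (n : ℕ) : RR p :=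
  match n with
  | 0 => 0
  | i + 1 => rho p (i + 1) * xx p ^ (3 ^ i) * rho p (i + 1)

theorem gg_mem (n : ℕ) : gg p n ∈ Rg p := by
  cases n with
  | zero => exact zero_mem _
  | succ i => exact mul_mem (mul_mem (rho_mem p _) (pow_mem (xx_mem p) _)) (rho_mem p _)

theorem gg_apply (n j : ℕ) (b a : Fin (3 ^ j)) :
    gg p n j b a = if j < n ∧ (b : ℕ) = 0 ∧ (a : ℕ) = 0 then 1 else 0 := by
  cases n with
  | zero => simp [gg]
  | succ i =>
    have e : gg p (i + 1) j = rho p (i + 1) j * xx p j ^ (3 ^ i) * rho p (i + 1) j := rfl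
    rw [e, rho_diag, Matrix.mul_assoc, Matrix.diagonal_mul, Matrix.mul_diagonal, xx_pow]
    by_cases hj : j < i + 1
    · have hle : 3 ^ j ∣ 3 ^ i := pow_dvd_pow 3 (by omega)
      have hlt : 3 ^ j < 3 ^ (i + 1) := Nat.pow_lt_pow_right (by norm_num) hj
      have hb : 3 ^ (i + 1) ∣ (b : ℕ) ↔ (b : ℕ) = 0 := by
        constructor
        · intro h
          exact Nat.eq_zero_of_dvd_of_lt h (b.2.trans hlt)
        · intro h; rw [h]; exact dvd_zero _
      have ha : 3 ^ (i + 1) ∣ (a : ℕ) ↔ (a : ℕ) = 0 := by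
        constructor
        · intro h
          exact Nat.eq_zero_of_dvd_of_lt h (a.2.trans hlt)
        · intro h; rw [h]; exact dvd_zero _
      simp only [hb, ha, hj, true_and]
      by_cases h1 : (b : ℕ) = 0
      · by_cases h2 : (a : ℕ) = 0
        · have h3 : (b : ℕ) = ((a : ℕ) + 3 ^ i) % 3 ^ j := by
            rw [h1, h2, zero_add, Nat.mod_eq_zero_of_dvd hle]
          rw [if_pos h1, if_pos h2, if_pos h3, if_pos ⟨h1, h2⟩]; ring
        · rw [if_neg h2, mul_zero, mul_zero, if_neg (fun h => h2 h.2)]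
      · rw [if_neg h1, zero_mul, if_neg (fun h => h1 h.1)]
    · have hle : 3 ^ (i + 1) ∣ 3 ^ j := pow_dvd_pow 3 (by omega)
      have hR : ¬ (j < i + 1 ∧ (b : ℕ) = 0 ∧ (a : ℕ) = 0) := fun h => hj h.1
      rw [if_neg hR]
      by_cases h1 : 3 ^ (i + 1) ∣ (b : ℕ)
      · by_cases h2 : 3 ^ (i + 1) ∣ (a : ℕ)
        · rw [if_neg (c := (b : ℕ) = ((a : ℕ) + 3 ^ i) % 3 ^ j), zero_mul, mul_zero]
          show ¬ ((b : ℕ) = ((a : ℕ) + 3 ^ i) % 3 ^ j)
          · 
            intro h
            rw [h] at h1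
            have h4 : 3 ^ (i + 1) ∣ (a : ℕ) + 3 ^ i := (Nat.dvd_mod_iff hle).mp h1
            have h5 : 3 ^ (i + 1) ∣ 3 ^ i := (Nat.dvd_add_right h2).mp h4
            have := Nat.le_of_dvd (by positivity) h5
            have h6 : 3 ^ i < 3 ^ (i + 1) := Nat.pow_lt_pow_right (by norm_num) (by omega)
            omega
        · rw [if_neg h2, mul_zero, mul_zero]
      · rw [if_neg h1, zero_mul]

/-- the matrix unit `e_{b,a}` in the coordinate `i` -/
theorem unit_mem (i : ℕ) (b a : Fin (3 ^ i)) :
    (Pi.single i (Matrix.single b a 1) : RR p) ∈ Rg p := by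
  have key : (Pi.single i (Matrix.single b a 1) : RR p) =
      xx p ^ (b : ℕ) * (gg p (i + 1) - gg p i) * (fun j => (xx p j).transpose) ^ (a : ℕ) := by
    funext j
    have e : (xx p ^ (b : ℕ) * (gg p (i + 1) - gg p i) *
        (fun j => (xx p j).transpose) ^ (a : ℕ)) j =
        xx p j ^ (b : ℕ) * (gg p (i + 1) j - gg p i j) * (xx p j ^ (a : ℕ)).transpose := by
      simp [Matrix.transpose_pow]
    rw [e]
    by_cases hj : j = i
    · subst hj
      rw [Pi.single_eq_same]
      ext b' a'
      have hpos : 0 < 3 ^ j := by positivity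
      have e1 : gg p (j + 1) j - gg p j j = Matrix.single ⟨0, hpos⟩ ⟨0, hpos⟩ 1 := by
        ext u w
        rw [Matrix.sub_apply, gg_apply, gg_apply, Matrix.single_apply]
        by_cases hu : u = ⟨0, hpos⟩
        · by_cases hw : w = ⟨0, hpos⟩
          · subst hu; subst hw; simp
          · have hw' : ¬ ((w : ℕ) = 0) := fun h => hw (Fin.ext h)
            rw [if_neg (fun h => hw' h.2.2), if_neg (fun h => hw' h.2.2),
              if_neg (fun h => hw h.2.symm), sub_zero]
        · have hu' : ¬ ((u : ℕ) = 0) := fun h => hu (Fin.ext h)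
          rw [if_neg (fun h => hu' h.2.1), if_neg (fun h => hu' h.2.1),
            if_neg (fun h => hu h.1.symm), sub_zero]
      rw [e1, Matrix.mul_apply]
      rw [Finset.sum_eq_single ⟨0, hpos⟩]
      · rw [Matrix.mul_apply, Finset.sum_eq_single ⟨0, hpos⟩]
        · rw [xx_pow, Matrix.transpose_apply, xx_pow]
          simp only [Matrix.single_apply, and_self, if_true, mul_one, zero_add,
            Nat.mod_eq_of_lt b.2, Nat.mod_eq_of_lt a.2]
          by_cases h1 : b = b'
          · by_cases h2 : a = a'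
            · subst h1; subst h2; simp
            · have h2' : ¬ ((a' : ℕ) = a) := fun h => h2 (Fin.ext h.symm)
              simp [h2, h2']
          · have h1' : ¬ ((b' : ℕ) = b) := fun h => h1 (Fin.ext h.symm)
            simp [h1, h1']
        · intro c _ hc
          rw [Matrix.single_apply, if_neg (by rintro ⟨h, -⟩; exact hc h.symm), mul_zero]
        · simp
      · intro c _ hc
        rw [Matrix.mul_apply, Finset.sum_eq_zero, zero_mul]
        intro d _
        rw [Matrix.single_apply, if_neg (by rintro ⟨-, h⟩; exact hc h.symm), mul_zero]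
      · simp
    · rw [Pi.single_eq_of_ne hj]
      have e1 : gg p (i + 1) j - gg p i j = 0 := by
        ext u w
        rw [Matrix.sub_apply, gg_apply, gg_apply]
        have : j < i + 1 ↔ j < i := by omega
        simp [this]
      rw [e1]
      simp
  rw [key]
  exact mul_mem (mul_mem (pow_mem (xx_mem p) _) (sub_mem (gg_mem p _) (gg_mem p _)))
    (pow_mem (xxT_mem p) _)

/-- every element with support in one coordinate is in `Rg` -/
theorem single_mem (i : ℕ) (M : Matrix (Fin (3 ^ i)) (Fin (3 ^ i)) (ZMod (p i))) :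
    (Pi.single i M : RR p) ∈ Rg p := by
  have h1 : ∀ (b a : Fin (3 ^ i)) (c : ZMod (p i)),
      (Pi.single i (Matrix.single b a c) : RR p) ∈ Rg p := by
    intro b a c
    have : (Pi.single i (Matrix.single b a c) : RR p) =
        c.val • (Pi.single i (Matrix.single b a 1) : RR p) := by
      rw [← Pi.single_smul]
      congr 1
      rw [Matrix.smul_single]
      congr 1
      simp
    rw [this]
    exact nsmul_mem (unit_mem p i b a) _
  have h2 : M = ∑ b, ∑ a, Matrix.single b a (M b a) := Matrix.matrix_eq_sum_single M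
  rw [h2]
  have h3 : ∀ (s : Finset (Fin (3 ^ i))) (f : Fin (3 ^ i) →
      Matrix (Fin (3 ^ i)) (Fin (3 ^ i)) (ZMod (p i))),
      (∀ b ∈ s, (Pi.single i (f b) : RR p) ∈ Rg p) → (Pi.single i (∑ b ∈ s, f b) : RR p) ∈ Rg p := by
    intro s f
    classical
    induction s using Finset.induction_on with
    | empty => intro _; simp [zero_mem]
    | insert a s ha ih =>
      intro h
      rw [Finset.sum_insert ha, Pi.single_add]
      exact add_mem (h a (Finset.mem_insert_self a s))
        (ih fun b hb => h b (Finset.mem_insert_of_mem hb))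
  exact h3 _ _ fun b _ => h3 _ _ fun a _ => h1 b a _

theorem finsupp_mem (r : RR p) (h : {i | r i ≠ 0}.Finite) : r ∈ Rg p := by
  classical
  have : r = ∑ i ∈ h.toFinset, (Pi.single i (r i) : RR p) := by
    funext j
    rw [Finset.sum_apply]
    by_cases hj : r j = 0
    · rw [hj, Finset.sum_eq_zero]
      intro i _
      by_cases hij : j = i
      · subst hij; rw [Pi.single_eq_same, hj]
      · rw [Pi.single_eq_of_ne hij]
    · rw [Finset.sum_eq_single j]
      · simp
      · intro i _ hij
        rw [Pi.single_eq_of_ne (Ne.symm hij)]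
      · intro hj'
        exact absurd (by simpa using hj) hj'
  rw [this]
  exact sum_mem fun i _ => single_mem p i _

end Pool.Agent.Q22.CG
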